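import Pool.Agent.Run7.h871.CS.Geo

/-!
Moments of the number of vertices with an arm: `S_TAIL`, `S_SECM`, `S_SECU`.
-/

set_option autoImplicit false

namespace CS871

open Finset H974 H31K Pool.Agent.H160R2.CV Pool.Agent.H160R2.CV.Quad

/-! ### independence at a general parameter -/

theorem le_loc {p : ℝ} (ok : Ok (fun _ : Edg => p)) (S T : Finset Edg)
    {A : Finset Edg → Prop} (hA : IncA A) (hT : LocE T A) :
    Pr (fun _ => p) S A ≤ Pr (fun _ => p) T A := by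
  have s2 : Pr (fun _ => p) S A ≤ Pr (fun _ => p) (S ∪ T) A :=
    Pr_mono_set ok Finset.subset_union_left (fun F G h _ => hA F G h)
  have s3 : Pr (fun _ => p) (S ∪ T) A = Pr (fun _ => p) T A :=
    Pr_local Finset.subset_union_right (fun F _ => hT F)
  linarith

theorem ind2 {p : ℝ} (ok : Ok (fun _ : Edg => p)) (S S1 S2 : Finset Edg) (hd : Disjoint S1 S2)
    {A B : Finset Edg → Prop} (hA : IncA A) (hB : IncA B) (hA' : LocE S1 A) (hB' : LocE S2 B) :
    Pr (fun _ => p) S (fun F => A F ∧ B F) ≤ Pr (fun _ => p) S1 A * Pr (fun _ => p) S2 B := by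
  have hi : IncA (fun F => A F ∧ B F) := fun F G h hF => ⟨hA F G h hF.1, hB F G h hF.2⟩
  have hl : LocE (S1 ∪ S2) (fun F => A F ∧ B F) := by
    intro F
    show (A F ∧ B F) ↔ (A (F ∩ (S1 ∪ S2)) ∧ B (F ∩ (S1 ∪ S2)))
    rw [hA' F, hB' F, hA' (F ∩ (S1 ∪ S2)), hB' (F ∩ (S1 ∪ S2))]
    have e1 : F ∩ (S1 ∪ S2) ∩ S1 = F ∩ S1 := by
      ext e; simp only [Finset.mem_inter, Finset.mem_union]; tauto
    have e2 : F ∩ (S1 ∪ S2) ∩ S2 = F ∩ S2 := by
      ext e; simp only [Finset.mem_inter, Finset.mem_union]; tauto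
    rw [e1, e2]
  have h1 := le_loc ok S (S1 ∪ S2) hi hl
  have h2 : Pr (fun _ => p) (S1 ∪ S2) (fun F => A F ∧ B F) =
      Pr (fun _ => p) (S1 ∪ S2) A * Pr (fun _ => p) (S1 ∪ S2) B :=
    Pr_indep Finset.subset_union_left Finset.subset_union_right hd (fun F _ => hA' F)
      (fun F _ => hB' F)
  have h3 : Pr (fun _ => p) (S1 ∪ S2) A = Pr (fun _ => p) S1 A :=
    Pr_local Finset.subset_union_left (fun F _ => hA' F)
  have h4 : Pr (fun _ => p) (S1 ∪ S2) B = Pr (fun _ => p) S2 B :=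
    Pr_local Finset.subset_union_right (fun F _ => hB' F)
  rw [h2, h3, h4] at h1
  exact h1

theorem prLA {p : ℝ} (h0 : 0 ≤ p) (h1 : p ≤ 1) (S : Finset Edg) (v : Vtx) (m : ℕ) :
    Pr (fun _ => p) S (LA v m) ≤ arm p m := by
  refine le_trans (Pr_mono (okq h0 h1) ?_) (arm_bound h0 h1 S v m)
  rintro F _ ⟨w, -, k2, k3⟩
  exact ⟨w, by omega, k3.mono Set.inter_subset_left⟩

theorem LA_anti {v : Vtx} {m r : ℕ} (h : m ≤ r) {F : Finset Edg} (hF : LA v r F) : LA v m F :=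
  LA_of_far h (far_of_LA hF)

/-- arms in disjoint boxes -/
theorem pr_prod {p : ℝ} (h0 : 0 ≤ p) (h1 : p ≤ 1) (X : Finset Vtx) (r : Vtx → ℕ)
    (hd : ∀ x ∈ X, ∀ y ∈ X, x ≠ y → Disjoint (bo x (r x)) (bo y (r y))) (S : Finset Edg) :
    Pr (fun _ => p) S (fun F => ∀ x ∈ X, LA x (r x) F) ≤ ∏ x ∈ X, arm p (r x) := by
  classical
  have ok := okq h0 h1
  induction X using Finset.induction_on generalizing S with
  | empty =>
    rw [Finset.prod_empty]
    exact Pr_le_one ok _ _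
  | insert a X ha ih =>
    rw [Finset.prod_insert ha]
    have e1 : Pr (fun _ => p) S (fun F => ∀ x ∈ insert a X, LA x (r x) F) =
        Pr (fun _ => p) S (fun F => LA a (r a) F ∧ ∀ x ∈ X, LA x (r x) F) := by
      apply Pr_congr
      intro F _
      exact Finset.forall_mem_insert _ _ _
    rw [e1]
    have hdis : Disjoint (bo a (r a)) (X.biUnion fun x => bo x (r x)) := by
      rw [Finset.disjoint_biUnion_right]
      intro x hx
      exact hd a (Finset.mem_insert_self _ _) x (Finset.mem_insert_of_mem hx)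
        (fun h => ha (h ▸ hx))
    have hi : IncA (fun F => ∀ x ∈ X, LA x (r x) F) :=
      fun F G h hF x hx => LA_inc x (r x) F G h (hF x hx)
    have hl : LocE (X.biUnion fun x => bo x (r x)) (fun F => ∀ x ∈ X, LA x (r x) F) := fun F =>
      forall_congr' fun x => forall_congr' fun hx =>
        LA_loc (Finset.subset_biUnion_of_mem (fun x => bo x (r x)) hx) F
    refine (ind2 ok S (bo a (r a)) (X.biUnion fun x => bo x (r x)) hdis (LA_inc a (r a))
      hi (LA_loc (Finset.Subset.refl _)) hl).trans ?_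
    · apply mul_le_mul (prLA h0 h1 _ _ _) _ (Pr_nonneg ok _ _) (arm_nonneg h0 h1 _)
      exact ih (fun x hx y hy => hd x (Finset.mem_insert_of_mem hx) y
        (Finset.mem_insert_of_mem hy)) _

/-- the radius of the arm which is used at a point -/
noncomputable def rr (m : ℕ) (X : Finset Vtx) (x : Vtx) : ℕ := (dd m X x - 1) / 2

theorem rr_le (m : ℕ) (X : Finset Vtx) (x : Vtx) : rr m X x ≤ m := by
  have := dd_le_m m X x
  unfold rr
  omega

/-- the probability of arms is at most the product of the weights -/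
theorem pr_W {p A : ℝ} (h0 : 0 ≤ p) (h1 : p ≤ 1) {m : ℕ} (hm : 1 ≤ m) (hA : ArmUp p A m)
    (X : Finset Vtx) (S : Finset Edg) :
    Pr (fun _ => p) S (fun F => ∀ x ∈ X, LA x (rr m X x) F) ≤ W A m X := by
  refine (pr_prod h0 h1 X (rr m X) ?_ S).trans ?_
  · intro x hx y hy hxy
    apply bo_disj
    have e1 : dd m X x ≤ nv (x - y) := dd_le m hy hxy.symm
    have e2 : dd m X y ≤ nv (y - x) := dd_le m hx hxy
    have e3 := nv_sub_comm x y
    have e4 := dd_pos hm X x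
    have e5 := dd_pos hm X y
    unfold rr
    omega
  · exact Finset.prod_le_prod (fun x _ => arm_nonneg h0 h1 _)
      (fun x _ => hA _ (dd_pos hm X x) (dd_le_m m X x))

theorem arms_of_all {m : ℕ} {X : Finset Vtx} {F : Finset Edg} (h : ∀ x ∈ X, LA x m F) :
    ∀ x ∈ X, LA x (rr m X x) F := fun x hx => LA_anti (rr_le m X x) (h x hx)

theorem arms_of_conn {m : ℕ} {X : Finset Vtx} {F : Finset Edg} (h2 : ∀ x ∈ X, ∃ y ∈ X, y ≠ x)
    (h : ∀ x ∈ X, ∀ y ∈ X, Reach (↑F : Set Edg) x y) : ∀ x ∈ X, LA x (rr m X x) F := by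
  intro x hx
  obtain ⟨y, hy, hyx⟩ := h2 x hx
  apply LA_of_reach (u := y) _ (h x hx y hy)
  have e1 : dd m X x ≤ nv (x - y) := dd_le m hy hyx
  have e3 := nv_sub_comm x y
  unfold rr
  omega

theorem dd_single (m : ℕ) (x : Vtx) : dd m {x} x = m := by
  rcases dd_cases m {x} x with h | ⟨y, hy, hyx, -⟩
  · exact h
  · exact absurd (Finset.mem_singleton.1 hy) hyx

theorem W_single (A : ℝ) (m : ℕ) (x : Vtx) : W A m {x} = A * (m:ℝ) ^ (-(5/48) : ℝ) := by
  unfold W
  rw [Finset.prod_singleton, dd_single]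

/-! ### the second moments -/

theorem sum_pair {A : ℝ} (hA : 1 ≤ A) {m N : ℕ} (hm : 1 ≤ m) {D X0 : Finset Vtx}
    (hD : D.card ≤ N * m ^ 2) (hd : ∀ z ∈ D, z ∉ X0) :
    ∑ x ∈ D, ∑ y ∈ D, W A m (insert y (insert x X0)) ≤
      (1 + 16 * A * (m : ℝ) ^ (91/48 : ℝ) * (N + (X0.card + 1))) *
        ∑ x ∈ D, W A m (insert x X0) := by
  classical
  have hA0 : 0 ≤ A := by linarith
  rw [Finset.mul_sum]
  apply Finset.sum_le_sum
  intro x hx
  have h1 : ∑ y ∈ D, W A m (insert y (insert x X0)) =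
      W A m (insert x X0) + ∑ y ∈ D.erase x, W A m (insert y (insert x X0)) := by
    rw [← Finset.add_sum_erase D _ hx, Finset.insert_idem]
  have h2 := W_sum hA (N := N) hm (X := insert x X0) (E := D.erase x) (by
    intro z hz hz2
    rcases Finset.mem_insert.1 hz2 with h | h
    · exact (Finset.ne_of_mem_erase hz) h
    · exact hd z (Finset.mem_of_mem_erase hz) h) ((Finset.card_le_card (Finset.erase_subset _ _)).trans hD)
  rw [Finset.card_insert_of_notMem (hd x hx)] at h2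
  push_cast at h2
  have e : ∑ y ∈ D, W A m (insert y (insert x X0)) ≤ W A m (insert x X0) +
      16 * A * (m : ℝ) ^ (91/48 : ℝ) * (N + (X0.card + 1)) * W A m (insert x X0) := by
    rw [h1]
    linarith
  exact e.trans (le_of_eq (by ring))

theorem V_ge_one {m : ℕ} (hm : 1 ≤ m) : 1 ≤ (m : ℝ) ^ (91/48 : ℝ) :=
  Real.one_le_rpow (by exact_mod_cast hm) (by norm_num)

theorem secm : S_SECM := by
  classical
  intro A hA
  refine ⟨(1 + 32 * A) * (16 * A) * A, by positivity, ?_⟩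
  intro p m N D S h0 h1 hm hUp hD hD0
  have hA0 : 0 ≤ A := by linarith
  have ok := okq h0 h1
  have hV := V_ge_one hm
  have hm0 : (0:ℝ) < m := by exact_mod_cast hm
  obtain ⟨V, hVd⟩ : ∃ V : ℝ, V = (m : ℝ) ^ (91/48 : ℝ) := ⟨_, rfl⟩
  have hd : ∀ z ∈ D, z ∉ ({(0, 0)} : Finset Vtx) := by
    intro z hz h
    rw [Finset.mem_singleton] at h
    exact hD0 (h ▸ hz)
  have key : ∀ x ∈ D, ∀ y ∈ D, Pr (fun _ => p) S (fun F => Reach (↑F : Set Edg) (0, 0) x ∧
      Reach (↑F : Set Edg) (0, 0) y) ≤ W A m (insert y (insert x {(0, 0)})) := by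
    intro x hx y hy
    refine le_trans (Pr_mono ok ?_) (pr_W h0 h1 hm hUp (insert y (insert x {(0, 0)})) S)
    rintro F _ ⟨hr1, hr2⟩
    have hx0 : x ≠ (0, 0) := fun h => hD0 (h ▸ hx)
    have hy0 : y ≠ (0, 0) := fun h => hD0 (h ▸ hy)
    have hc : ∀ u ∈ insert y (insert x ({(0, 0)} : Finset Vtx)), Reach (↑F : Set Edg) (0, 0) u := by
      intro u hu
      rcases Finset.mem_insert.1 hu with h | h
      · rw [h]; exact hr2
      · rcases Finset.mem_insert.1 h with h | h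
        · rw [h]; exact hr1
        · rw [Finset.mem_singleton.1 h]; exact Reach.refl _ _
    apply arms_of_conn
    · intro u hu
      by_cases h : u = (0, 0)
      · exact ⟨x, Finset.mem_insert_of_mem (Finset.mem_insert_self _ _), fun h2 => hx0 (h2.trans h)⟩
      · refine ⟨(0, 0), ?_, fun h2 => h h2.symm⟩
        exact Finset.mem_insert_of_mem (Finset.mem_insert_of_mem (Finset.mem_singleton_self _))
    · intro u hu v hv
      exact (hc u hu).symm.trans (hc v hv)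
  have s1 : ∑ x ∈ D, ∑ y ∈ D, Pr (fun _ => p) S (fun F => Reach (↑F : Set Edg) (0, 0) x ∧
      Reach (↑F : Set Edg) (0, 0) y) ≤ ∑ x ∈ D, ∑ y ∈ D, W A m (insert y (insert x {(0, 0)})) :=
    Finset.sum_le_sum fun x hx => Finset.sum_le_sum fun y hy => key x hx y hy
  have s2 := sum_pair hA (N := N) hm (X0 := {(0, 0)}) hD hd
  have s3 := W_sum hA (N := N) hm (X := {(0, 0)}) (E := D) hd hD
  rw [Finset.card_singleton, W_single] at s3
  rw [Finset.card_singleton] at s2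
  rw [← hVd] at s2 s3 hV ⊢
  push_cast at s2 s3
  have hmp : 0 < (m:ℝ) ^ (-(5/48) : ℝ) := by positivity
  have hN : (0:ℝ) ≤ N := by positivity
  refine s1.trans (s2.trans ?_)
  have k1 : 1 + 16 * A * V * ((N:ℝ) + (1 + 1)) ≤ (1 + 32 * A) * (V * (N + 1)) := by
    have : 1 ≤ V * (N + 1) := by nlinarith
    have h3 : 16 * A * V * ((N:ℝ) + (1 + 1)) ≤ 32 * A * (V * (N + 1)) := by
      have h4 : 0 ≤ 16 * A * V := by positivity
      have h5 : (N:ℝ) + (1 + 1) ≤ 2 * (N + 1) := by linarith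
      calc 16 * A * V * ((N:ℝ) + (1 + 1)) ≤ 16 * A * V * (2 * (N + 1)) :=
            mul_le_mul_of_nonneg_left h5 h4
        _ = _ := by ring
    linarith
  have hS0 : 0 ≤ ∑ x ∈ D, W A m (insert x {(0, 0)}) :=
    Finset.sum_nonneg fun x _ => W_nonneg hA0 _ _
  have s3' : ∑ x ∈ D, W A m (insert x {(0, 0)}) ≤
      16 * A * V * (N + 1) * (A * (m:ℝ) ^ (-(5/48) : ℝ)) := s3
  calc (1 + 16 * A * V * ((N:ℝ) + (1 + 1))) * ∑ x ∈ D, W A m (insert x {(0, 0)})
      ≤ ((1 + 32 * A) * (V * (N + 1))) * (16 * A * V * (N + 1) * (A * (m:ℝ) ^ (-(5/48) : ℝ))) :=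
        mul_le_mul k1 s3' hS0 (by positivity)
    _ = _ := by ring

theorem secu : S_SECU := by
  classical
  intro A hA
  refine ⟨(1 + 16 * A) * A, by positivity, ?_⟩
  intro p m N D S h0 h1 hm hUp hD
  have hA0 : 0 ≤ A := by linarith
  have ok := okq h0 h1
  have hV := V_ge_one hm
  have hm0 : (0:ℝ) < m := by exact_mod_cast hm
  obtain ⟨V, hVd⟩ : ∃ V : ℝ, V = (m : ℝ) ^ (91/48 : ℝ) := ⟨_, rfl⟩
  have key : ∀ x ∈ D, ∀ y ∈ D, Pr (fun _ => p) S (fun F => LA x m F ∧ LA y m F) ≤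
      W A m (insert y (insert x ∅)) := by
    intro x hx y hy
    refine le_trans (Pr_mono ok ?_) (pr_W h0 h1 hm hUp (insert y (insert x ∅)) S)
    rintro F _ ⟨hr1, hr2⟩
    apply arms_of_all
    intro u hu
    rcases Finset.mem_insert.1 hu with h | h
    · rw [h]; exact hr2
    · rcases Finset.mem_insert.1 h with h | h
      · rw [h]; exact hr1
      · exact absurd h (Finset.notMem_empty _)
  have s1 : ∑ x ∈ D, ∑ y ∈ D, Pr (fun _ => p) S (fun F => LA x m F ∧ LA y m F) ≤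
      ∑ x ∈ D, ∑ y ∈ D, W A m (insert y (insert x ∅)) :=
    Finset.sum_le_sum fun x hx => Finset.sum_le_sum fun y hy => key x hx y hy
  have s2 := sum_pair hA (N := N) hm (X0 := ∅) hD (fun _ _ => Finset.notMem_empty _)
  rw [Finset.card_empty] at s2
  rw [← hVd] at s2 hV ⊢
  push_cast at s2
  have hN : (0:ℝ) ≤ N := by positivity
  have s3 : ∑ x ∈ D, W A m (insert x ∅) ≤ A * (V * (N + 1)) := by
    have e1 : ∀ x ∈ D, W A m (insert x ∅) = A * (m:ℝ) ^ (-(5/48) : ℝ) := by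
      intro x _
      rw [insert_empty_eq, W_single]
    rw [Finset.sum_congr rfl e1, Finset.sum_const, nsmul_eq_mul]
    have hDr : (D.card : ℝ) ≤ N * (m:ℝ) ^ 2 := by exact_mod_cast hD
    have e2 : (m:ℝ) ^ 2 * (m:ℝ) ^ (-(5/48) : ℝ) = V := by
      rw [hVd, ← Real.rpow_natCast, ← Real.rpow_add hm0]; norm_num
    calc (D.card : ℝ) * (A * (m:ℝ) ^ (-(5/48) : ℝ)) ≤ (N * (m:ℝ) ^ 2) * (A * (m:ℝ) ^ (-(5/48) : ℝ)) :=
          mul_le_mul_of_nonneg_right hDr (by positivity)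
      _ = A * (N * ((m:ℝ) ^ 2 * (m:ℝ) ^ (-(5/48) : ℝ))) := by ring
      _ = A * (V * N) := by rw [e2]; ring
      _ ≤ _ := by
          apply mul_le_mul_of_nonneg_left _ hA0
          nlinarith
  refine s1.trans (s2.trans ?_)
  have k1 : 1 + 16 * A * V * ((N:ℝ) + (0 + 1)) ≤ (1 + 16 * A) * (V * (N + 1)) := by
    have : 1 ≤ V * (N + 1) := by nlinarith
    have h3 : 16 * A * V * ((N:ℝ) + (0 + 1)) = 16 * A * (V * (N + 1)) := by ring
    linarith
  have hS0 : 0 ≤ ∑ x ∈ D, W A m (insert x ∅) :=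
    Finset.sum_nonneg fun x _ => W_nonneg hA0 _ _
  calc (1 + 16 * A * V * ((N:ℝ) + (0 + 1))) * ∑ x ∈ D, W A m (insert x ∅)
      ≤ ((1 + 16 * A) * (V * (N + 1))) * (A * (V * (N + 1))) :=
        mul_le_mul k1 s3 hS0 (by positivity)
    _ = _ := by ring

end CS871
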