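import Pool.Agent.Run7.h213.T.Main
import Pool.Agent.H362P.Base

/-!
Cluster sizes near the critical point: definitions and the statements of the parts.
-/

set_option autoImplicit false

namespace CS871

open Finset H974 H31K Pool.Agent.H160R2.CV Pool.Agent.H160R2.CV.Quad Pool.Agent.W424.NC

/-- up to the scale `m` the one-arm probabilities at `p` have at most the critical size -/
def ArmUp (p A : ℝ) (m : ℕ) : Prop :=
  ∀ d : ℕ, 1 ≤ d → d ≤ m → arm p ((d - 1) / 2) ≤ A * (d : ℝ) ^ (-(5/48) : ℝ)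

/-- the cluster of the origin in `F`, cut with the box of radius `K` -/
noncomputable def cF (K : ℕ) (F : Finset Edg) : Finset Vtx := by
  classical exact (bx K).filter (fun u => Reach (↑F : Set Edg) (0, 0) u)

/-- the vertices of `D` with an arm of length `m` -/
noncomputable def Ys (D : Finset Vtx) (m : ℕ) (F : Finset Edg) : Finset Vtx := by
  classical exact D.filter (fun x => LA x m F)

/-- TAIL: the number of vertices of `D` with an arm of length `m`, on the event that the origin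
has one -/
def S_TAIL : Prop := ∀ A : ℝ, 1 ≤ A → ∃ c C : ℝ, 0 < c ∧ 0 < C ∧
  ∀ (p : ℝ) (m N n : ℕ) (D : Finset Vtx) (S : Finset Edg), 0 ≤ p → p ≤ 1 → 1 ≤ m → ArmUp p A m →
    D.card ≤ N * m ^ 2 →
    Pr (fun _ => p) S (fun F => LA (0, 0) m F ∧ n ≤ (Ys D m F).card) ≤
      C * (m : ℝ) ^ (-(5/48) : ℝ) * Real.exp (C * N - c * (n / (m : ℝ) ^ (91/48 : ℝ)))

/-- SECM: the marked second moment -/
def S_SECM : Prop := ∀ A : ℝ, 1 ≤ A → ∃ C : ℝ, 0 < C ∧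
  ∀ (p : ℝ) (m N : ℕ) (D : Finset Vtx) (S : Finset Edg), 0 ≤ p → p ≤ 1 → 1 ≤ m → ArmUp p A m →
    D.card ≤ N * m ^ 2 → (0, 0) ∉ D →
    ∑ x ∈ D, ∑ y ∈ D, Pr (fun _ => p) S (fun F => Reach (↑F : Set Edg) (0, 0) x ∧
        Reach (↑F : Set Edg) (0, 0) y) ≤
      C * (m : ℝ) ^ (-(5/48) : ℝ) * ((m : ℝ) ^ (91/48 : ℝ) * (N + 1)) ^ 2

/-- SECU: the unmarked second moment -/
def S_SECU : Prop := ∀ A : ℝ, 1 ≤ A → ∃ C : ℝ, 0 < C ∧
  ∀ (p : ℝ) (m N : ℕ) (D : Finset Vtx) (S : Finset Edg), 0 ≤ p → p ≤ 1 → 1 ≤ m → ArmUp p A m →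
    D.card ≤ N * m ^ 2 →
    ∑ x ∈ D, ∑ y ∈ D, Pr (fun _ => p) S (fun F => LA x m F ∧ LA y m F) ≤
      C * ((m : ℝ) ^ (91/48 : ℝ) * (N + 1)) ^ 2

/-- ANI: below the critical point, clusters which reach a large distance (in units of the scale
`N` at which crossings are unlikely); may use `S_TAIL`. Plan: `M = 2 ^ j N`, blocks of side
`2 M - 1`, animals (`Run7.h967.AL.anim_sum`), independence of the events that an annulus around a
block is crossed (`pr_nblk_pow`) for the blocks of one class mod 3, and the geometric mean of the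
two bounds. -/
def S_ANI : Prop := ∀ A : ℝ, 1 ≤ A → ∃ c C : ℝ, 0 < c ∧ 0 < C ∧ ∃ R0 : ℕ,
  ∀ (p : ℝ) (N K n : ℕ), 0 ≤ p → p < 1/2 → 2 ≤ N → eps (1 - p) N ≤ 1/100 → ArmUp p A N →
    Pr (fun _ => p) (boxE K) (fun F => n ≤ (cF K F).card ∧
        (∃ u, R0 * N ≤ nv u ∧ Reach (↑F : Set Edg) (0, 0) u) ∧ ¬ Arm K F) ≤
      C * (N : ℝ) ^ (-(5/48) : ℝ) * Real.exp (-(c * (n / (N : ℝ) ^ (91/48 : ℝ))))

/-- CHAIN: a chain of `k` blocks of size `m`, each with a large volume, joined by circuits and a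
long crossing; may use `S_SECU`. -/
def S_CHAIN : Prop := ∀ A a κ : ℝ, 1 ≤ A → 0 < a → 0 < κ → ∃ c C : ℝ, 0 < c ∧ 0 < C ∧
  ∀ (p : ℝ) (m k : ℕ), 1 ≤ m → 1 ≤ k → H12S.Win p κ (4 * m) → ArmUp p A m →
    (∀ j : ℕ, 1 ≤ j → j ≤ 4 * m → a * (j : ℝ) ^ (-(5/48) : ℝ) ≤ arm p j) →
    ∃ K : ℕ, c * (m : ℝ) ^ (-(5/48) : ℝ) * Real.exp (-(C * k)) ≤
      Pr (fun _ => p) (boxE K) (fun F => c * k * (m : ℝ) ^ (91/48 : ℝ) ≤ ((cF K F).card : ℝ))

/-- SND: second moment method for the cluster of the origin in the box of radius `r`; may use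
`S_SECM`. -/
def S_SND : Prop := ∀ A b : ℝ, 1 ≤ A → 0 < b → ∃ c : ℝ, 0 < c ∧
  ∀ (p : ℝ) (m r : ℕ), 0 ≤ p → p ≤ 1 → 1 ≤ m → m ≤ r → ArmUp p A m →
    (∀ x : Vtx, r < 2 * nv x → nv x ≤ r → b * (m : ℝ) ^ (-(5/24) : ℝ) ≤
      Pr (fun _ => p) (boxE (3 * r)) (TP x)) →
    c * (m : ℝ) ^ (-(5/48) : ℝ) ≤ Pr (fun _ => p) (boxE (3 * r))
      (fun F => c * (r : ℝ) ^ 2 * (m : ℝ) ^ (-(5/48) : ℝ) ≤ ((cF (3 * r) F).card : ℝ))

end CS871
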