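import Pool.Agent.Run7.h871.CS.Base
import Pool.Agent.H362P.Low

/-!
Nearest neighbour distances of a finite set of vertices: adding a point.
-/

set_option autoImplicit false

namespace CS871

open Finset H974 H31K Pool.Agent.H160R2.CV Pool.Agent.H160R2.CV.Quad

theorem nv_sub_comm (x y : Vtx) : nv (x - y) = nv (y - x) := by
  unfold nv
  simp only [Prod.fst_sub, Prod.snd_sub]
  congr 1 <;> omega

theorem nv_pos {x y : Vtx} (h : x ≠ y) : 1 ≤ nv (x - y) := by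
  by_contra hc
  apply h
  have h0 : nv (x - y) = 0 := by omega
  unfold nv at h0
  simp only [Prod.fst_sub, Prod.snd_sub] at h0
  ext <;> omega

open Classical in
/-- the distance to the nearest other point, cut at `m` -/
noncomputable def dd (m : ℕ) (X : Finset Vtx) (x : Vtx) : ℕ :=
  (insert m ((X.erase x).image fun y => nv (x - y))).min' (Finset.insert_nonempty _ _)

theorem dd_le_m (m : ℕ) (X : Finset Vtx) (x : Vtx) : dd m X x ≤ m :=
  Finset.min'_le _ _ (Finset.mem_insert_self _ _)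

theorem dd_le (m : ℕ) {X : Finset Vtx} {x y : Vtx} (hy : y ∈ X) (hxy : y ≠ x) :
    dd m X x ≤ nv (x - y) :=
  Finset.min'_le _ _ (Finset.mem_insert_of_mem (Finset.mem_image.2
    ⟨y, Finset.mem_erase.2 ⟨hxy, hy⟩, rfl⟩))

theorem le_dd {m k : ℕ} {X : Finset Vtx} {x : Vtx} (hk : k ≤ m)
    (h : ∀ y ∈ X, y ≠ x → k ≤ nv (x - y)) : k ≤ dd m X x := by
  apply Finset.le_min'
  intro b hb
  rcases Finset.mem_insert.1 hb with h1 | h1
  · rw [h1]; exact hk
  · obtain ⟨y, hy, rfl⟩ := Finset.mem_image.1 h1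
    exact h y (Finset.mem_of_mem_erase hy) (Finset.ne_of_mem_erase hy)

theorem dd_cases (m : ℕ) (X : Finset Vtx) (x : Vtx) :
    dd m X x = m ∨ ∃ y ∈ X, y ≠ x ∧ dd m X x = nv (x - y) := by
  have h := Finset.min'_mem (insert m ((X.erase x).image fun y => nv (x - y)))
    (Finset.insert_nonempty _ _)
  rcases Finset.mem_insert.1 h with h1 | h1
  · exact Or.inl h1
  · obtain ⟨y, hy, h2⟩ := Finset.mem_image.1 h1
    exact Or.inr ⟨y, Finset.mem_of_mem_erase hy, Finset.ne_of_mem_erase hy, h2.symm⟩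

theorem dd_pos {m : ℕ} (hm : 1 ≤ m) (X : Finset Vtx) (x : Vtx) : 1 ≤ dd m X x :=
  le_dd hm fun _ _ h => nv_pos h.symm

open Classical in
theorem dd_insert {m : ℕ} {X : Finset Vtx} {x z : Vtx} :
    min (dd m X x) (nv (x - z)) ≤ dd m (insert z X) x := by
  apply le_dd ((min_le_left _ _).trans (dd_le_m _ _ _))
  intro y hy hyx
  rcases Finset.mem_insert.1 hy with h | h
  · rw [h]; exact min_le_right _ _
  · exact (min_le_left _ _).trans (dd_le m h hyx)

/-- the product of the weights -/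
noncomputable def W (A : ℝ) (m : ℕ) (X : Finset Vtx) : ℝ :=
  ∏ x ∈ X, A * (dd m X x : ℝ) ^ (-(5/48) : ℝ)

theorem W_nonneg {A : ℝ} (hA : 0 ≤ A) (m : ℕ) (X : Finset Vtx) : 0 ≤ W A m X :=
  Finset.prod_nonneg fun _ _ => by positivity

/-- the points whose nearest neighbour becomes `z` -/
def Bad (m : ℕ) (X : Finset Vtx) (z x : Vtx) : Prop := nv (x - z) < dd m X x

theorem same_quad {x y z : Vtx} (h1 : z.1 ≤ x.1 ↔ z.1 ≤ y.1) (h2 : z.2 ≤ x.2 ↔ z.2 ≤ y.2) :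
    nv (x - y) ≤ max (nv (x - z)) (nv (y - z)) := by
  unfold nv
  simp only [Prod.fst_sub, Prod.snd_sub]
  omega

open Classical in
theorem card_bad (m : ℕ) {X : Finset Vtx} {z : Vtx} : (X.filter (Bad m X z)).card ≤ 4 := by
  have h : (X.filter (Bad m X z)).card ≤ (Finset.univ : Finset (Bool × Bool)).card := by
    apply Finset.card_le_card_of_injOn
      (fun x : Vtx => ((decide (z.1 ≤ x.1), decide (z.2 ≤ x.2)) : Bool × Bool))
      (fun _ _ => Finset.mem_coe.2 (Finset.mem_univ _))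
    intro x hx y hy hxy
    have hx' := Finset.mem_filter.1 (Finset.mem_coe.1 hx)
    have hy' := Finset.mem_filter.1 (Finset.mem_coe.1 hy)
    simp only [Prod.mk.injEq, decide_eq_decide] at hxy
    by_contra hne
    have h1 := same_quad hxy.1 hxy.2
    have h2 : dd m X x ≤ nv (x - y) := dd_le m hy'.1 (Ne.symm hne)
    have h3 : dd m X y ≤ nv (y - x) := dd_le m hx'.1 hne
    have h4 := nv_sub_comm x y
    have h5 : nv (x - z) < dd m X x := hx'.2
    have h6 : nv (y - z) < dd m X y := hy'.2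
    rcases le_max_iff.1 h1 with h7 | h7 <;> omega
  simpa using h

open Classical in
/-- adding a point -/
theorem W_insert {A : ℝ} (hA : 1 ≤ A) {m : ℕ} (hm : 1 ≤ m) {X : Finset Vtx} {z : Vtx}
    (hz : z ∉ X) :
    W A m (insert z X) ≤ A * (m : ℝ) ^ (20/48 : ℝ) *
      (dd m (insert z X) z : ℝ) ^ (-(25/48) : ℝ) * W A m X := by
  obtain ⟨D, hD⟩ : ∃ D : ℕ, D = dd m (insert z X) z := ⟨_, rfl⟩
  have hD1 : 1 ≤ D := by rw [hD]; exact dd_pos hm _ _
  have hDm : D ≤ m := by rw [hD]; exact dd_le_m _ _ _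
  have hD0 : (0:ℝ) < D := by exact_mod_cast hD1
  have hm0 : (0:ℝ) < m := by exact_mod_cast hm
  obtain ⟨ρ, hρ⟩ : ∃ ρ : ℝ, ρ = ((m:ℝ) / D) ^ (5/48 : ℝ) := ⟨_, rfl⟩
  have hρ1 : 1 ≤ ρ := by
    rw [hρ]
    apply Real.one_le_rpow _ (by norm_num)
    rw [le_div_iff₀ hD0, one_mul]
    exact_mod_cast hDm
  have hρm : ρ * (m:ℝ) ^ (-(5/48) : ℝ) = (D:ℝ) ^ (-(5/48) : ℝ) := by
    rw [hρ, Real.div_rpow hm0.le hD0.le, Real.rpow_neg hm0.le, Real.rpow_neg hD0.le]
    have h1 : 0 < (m:ℝ) ^ (5/48 : ℝ) := by positivity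
    have h2 : 0 < (D:ℝ) ^ (5/48 : ℝ) := by positivity
    field_simp
  have key : ∀ x ∈ X, A * (dd m (insert z X) x : ℝ) ^ (-(5/48) : ℝ) ≤
      (A * (dd m X x : ℝ) ^ (-(5/48) : ℝ)) * (if Bad m X z x then ρ else 1) := by
    intro x hx
    have hxz : x ≠ z := fun h => hz (h ▸ hx)
    have hdo : (0:ℝ) < dd m X x := by exact_mod_cast dd_pos hm X x
    have hdn : (0:ℝ) < dd m (insert z X) x := by exact_mod_cast dd_pos hm (insert z X) x
    split_ifs with hb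
    · have h1 : D ≤ dd m (insert z X) x := by
        refine le_trans (le_min ?_ ?_) dd_insert
        · have : D ≤ nv (z - x) := by
            rw [hD]; exact dd_le m (Finset.mem_insert_of_mem hx) hxz
          have h2 : nv (x - z) < dd m X x := hb
          have h3 := nv_sub_comm x z
          omega
        · have : D ≤ nv (z - x) := by
            rw [hD]; exact dd_le m (Finset.mem_insert_of_mem hx) hxz
          have h3 := nv_sub_comm x z
          omega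
      have h2 : (dd m (insert z X) x : ℝ) ^ (-(5/48) : ℝ) ≤ (D:ℝ) ^ (-(5/48) : ℝ) :=
        Real.rpow_le_rpow_of_nonpos hD0 (by exact_mod_cast h1) (by norm_num)
      have h3 : (m:ℝ) ^ (-(5/48) : ℝ) ≤ (dd m X x : ℝ) ^ (-(5/48) : ℝ) :=
        Real.rpow_le_rpow_of_nonpos hdo (by exact_mod_cast dd_le_m m X x) (by norm_num)
      calc A * (dd m (insert z X) x : ℝ) ^ (-(5/48) : ℝ) ≤ A * (D:ℝ) ^ (-(5/48) : ℝ) :=
            mul_le_mul_of_nonneg_left h2 (by linarith)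
        _ = (A * (m:ℝ) ^ (-(5/48) : ℝ)) * ρ := by rw [← hρm]; ring
        _ ≤ _ := by
            apply mul_le_mul_of_nonneg_right _ (by linarith)
            exact mul_le_mul_of_nonneg_left h3 (by linarith)
    · rw [mul_one]
      have h1 : dd m X x ≤ dd m (insert z X) x := by
        refine le_trans (le_min le_rfl ?_) dd_insert
        exact not_lt.1 hb
      exact mul_le_mul_of_nonneg_left
        (Real.rpow_le_rpow_of_nonpos hdo (by exact_mod_cast h1) (by norm_num)) (by linarith)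
  have hprod : ∏ x ∈ X, A * (dd m (insert z X) x : ℝ) ^ (-(5/48) : ℝ) ≤ W A m X * ρ ^ 4 := by
    calc ∏ x ∈ X, A * (dd m (insert z X) x : ℝ) ^ (-(5/48) : ℝ)
        ≤ ∏ x ∈ X, (A * (dd m X x : ℝ) ^ (-(5/48) : ℝ)) * (if Bad m X z x then ρ else 1) :=
          Finset.prod_le_prod (fun x _ => by positivity) key
      _ = W A m X * ρ ^ (X.filter (Bad m X z)).card := by
          rw [Finset.prod_mul_distrib, Finset.prod_ite, Finset.prod_const_one, mul_one,
            Finset.prod_const]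
          rfl
      _ ≤ _ := by
          apply mul_le_mul_of_nonneg_left _ (W_nonneg (by linarith) _ _)
          exact pow_le_pow_right₀ hρ1 (card_bad m)
  have e1 : W A m (insert z X) = A * (D:ℝ) ^ (-(5/48) : ℝ) *
      ∏ x ∈ X, A * (dd m (insert z X) x : ℝ) ^ (-(5/48) : ℝ) := by
    unfold W
    rw [Finset.prod_insert hz, ← hD]
  rw [e1, ← hD]
  have e2 : ρ ^ 4 * (D:ℝ) ^ (-(5/48) : ℝ) = (m:ℝ) ^ (20/48 : ℝ) * (D:ℝ) ^ (-(25/48) : ℝ) := by
    have h1 : ρ ^ 4 = ((m:ℝ) / D) ^ (20/48 : ℝ) := by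
      rw [hρ, ← Real.rpow_natCast, ← Real.rpow_mul (by positivity)]
      norm_num
    rw [h1, Real.div_rpow hm0.le hD0.le, div_mul_eq_mul_div, mul_div_assoc, ← Real.rpow_sub hD0]
    norm_num
  calc A * (D:ℝ) ^ (-(5/48) : ℝ) * ∏ x ∈ X, A * (dd m (insert z X) x : ℝ) ^ (-(5/48) : ℝ)
      ≤ A * (D:ℝ) ^ (-(5/48) : ℝ) * (W A m X * ρ ^ 4) :=
        mul_le_mul_of_nonneg_left hprod (by positivity)
    _ = A * (ρ ^ 4 * (D:ℝ) ^ (-(5/48) : ℝ)) * W A m X := by ring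
    _ = _ := by rw [e2]; ring

/-! ### summing over the new point -/

theorem sum_norm {m : ℕ} (hm : 1 ≤ m) :
    ∑ v ∈ (bx m).erase 0, (nv v : ℝ) ^ (-(25/48) : ℝ) ≤ 16 * (m : ℝ) ^ (71/48 : ℝ) := by
  have hm0 : (0:ℝ) < m := by exact_mod_cast hm
  obtain ⟨f, hf⟩ : ∃ f : ℕ → ℝ, f = fun k : ℕ => if k = 0 then 0 else (k:ℝ) ^ (-(25/48) : ℝ) :=
    ⟨_, rfl⟩
  have hf0 : ∀ k, 0 ≤ f k := by
    intro k
    rw [hf]
    simp only
    split_ifs
    · exact le_rfl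
    · positivity
  have h1 : ∑ v ∈ (bx m).erase 0, (nv v : ℝ) ^ (-(25/48) : ℝ) ≤ ∑ v ∈ bx m, f (nv v) := by
    refine le_trans (Finset.sum_le_sum (g := fun v => f (nv v)) ?_)
      (Finset.sum_le_sum_of_subset_of_nonneg (Finset.erase_subset _ _) fun _ _ _ => hf0 _)
    intro v hv
    have hv0 : nv v ≠ 0 := by
      intro h
      exact (Finset.ne_of_mem_erase hv) (nv_eq_zero h)
    rw [hf]
    simp only
    rw [if_neg hv0]
  refine h1.trans ((sum_bx m f hf0).trans ?_)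
  have h2 : ∀ k ∈ range (m + 1), ((k:ℝ) + 1) * f k ≤ if k = 0 then 0 else 2 * (m:ℝ) ^ (23/48 : ℝ) := by
    intro k hk
    rw [hf]
    simp only
    split_ifs with h
    · rw [mul_zero]
    · have hk1 : 1 ≤ k := Nat.one_le_iff_ne_zero.2 h
      have hkm : k ≤ m := by have := Finset.mem_range.1 hk; omega
      have hk0 : (0:ℝ) < k := by exact_mod_cast hk1
      have hk1' : (1:ℝ) ≤ k := by exact_mod_cast hk1
      have e : (k:ℝ) * (k:ℝ) ^ (-(25/48) : ℝ) = (k:ℝ) ^ (23/48 : ℝ) := by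
        nth_rewrite 1 [← Real.rpow_one (k:ℝ)]
        rw [← Real.rpow_add hk0]; norm_num
      calc ((k:ℝ) + 1) * (k:ℝ) ^ (-(25/48) : ℝ) ≤ (2 * k) * (k:ℝ) ^ (-(25/48) : ℝ) :=
            mul_le_mul_of_nonneg_right (by linarith) (by positivity)
        _ = 2 * (k:ℝ) ^ (23/48 : ℝ) := by rw [mul_assoc, e]
        _ ≤ _ := by
            apply mul_le_mul_of_nonneg_left _ (by norm_num)
            exact Real.rpow_le_rpow hk0.le (by exact_mod_cast hkm) (by norm_num)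
  have h3 : ∑ k ∈ range (m + 1), (if k = 0 then (0:ℝ) else 2 * (m:ℝ) ^ (23/48 : ℝ)) =
      m * (2 * (m:ℝ) ^ (23/48 : ℝ)) := by
    rw [Finset.sum_range_succ']
    simp
  have e : (m:ℝ) * (m:ℝ) ^ (23/48 : ℝ) = (m:ℝ) ^ (71/48 : ℝ) := by
    nth_rewrite 1 [← Real.rpow_one (m:ℝ)]
    rw [← Real.rpow_add hm0]; norm_num
  calc 8 * ∑ k ∈ range (m + 1), ((k:ℝ) + 1) * f k
      ≤ 8 * ∑ k ∈ range (m + 1), (if k = 0 then (0:ℝ) else 2 * (m:ℝ) ^ (23/48 : ℝ)) :=
        mul_le_mul_of_nonneg_left (Finset.sum_le_sum h2) (by norm_num)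
    _ = 16 * ((m:ℝ) * (m:ℝ) ^ (23/48 : ℝ)) := by rw [h3]; ring
    _ = _ := by rw [e]

open Classical in
theorem sum_dd {m : ℕ} (hm : 1 ≤ m) {X E : Finset Vtx} (hd : ∀ z ∈ E, z ∉ X) :
    ∑ z ∈ E, (dd m (insert z X) z : ℝ) ^ (-(25/48) : ℝ) ≤
      E.card * (m : ℝ) ^ (-(25/48) : ℝ) + X.card * (16 * (m : ℝ) ^ (71/48 : ℝ)) := by
  have key : ∀ z ∈ E, (dd m (insert z X) z : ℝ) ^ (-(25/48) : ℝ) ≤
      (m : ℝ) ^ (-(25/48) : ℝ) + ∑ x ∈ X,
        (if nv (z - x) ≤ m then (nv (z - x) : ℝ) ^ (-(25/48) : ℝ) else 0) := by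
    intro z hz
    have hnn : ∀ x ∈ X, 0 ≤ (if nv (z - x) ≤ m then (nv (z - x) : ℝ) ^ (-(25/48) : ℝ) else 0) := by
      intro x _
      split_ifs
      · positivity
      · exact le_rfl
    rcases dd_cases m (insert z X) z with h | ⟨y, hy, hyz, h⟩
    · rw [h]
      have := Finset.sum_nonneg hnn
      linarith
    · have hyX : y ∈ X := (Finset.mem_insert.1 hy).resolve_left hyz
      have h1 : nv (z - y) ≤ m := by rw [← h]; exact dd_le_m _ _ _
      have h2 := Finset.single_le_sum hnn hyX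
      rw [if_pos h1] at h2
      rw [h]
      have : 0 ≤ (m : ℝ) ^ (-(25/48) : ℝ) := by positivity
      linarith
  refine (Finset.sum_le_sum key).trans ?_
  rw [Finset.sum_add_distrib, Finset.sum_const, nsmul_eq_mul, Finset.sum_comm]
  apply add_le_add le_rfl
  have h4 : ∀ x ∈ X, ∑ z ∈ E, (if nv (z - x) ≤ m then (nv (z - x) : ℝ) ^ (-(25/48) : ℝ) else 0) ≤
      16 * (m : ℝ) ^ (71/48 : ℝ) := by
    intro x hx
    rw [← Finset.sum_filter]
    have h5 : ∑ z ∈ E.filter (fun z => nv (z - x) ≤ m), (nv (z - x) : ℝ) ^ (-(25/48) : ℝ) =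
        ∑ v ∈ (E.filter (fun z => nv (z - x) ≤ m)).image (fun z => z - x),
          (nv v : ℝ) ^ (-(25/48) : ℝ) := by
      rw [Finset.sum_image]
      intro a _ b _ hab
      exact sub_left_injective hab
    rw [h5]
    refine (Finset.sum_le_sum_of_subset_of_nonneg ?_ fun _ _ _ => by positivity).trans
      (sum_norm hm)
    intro v hv
    obtain ⟨z, hz, rfl⟩ := Finset.mem_image.1 hv
    have hz' := Finset.mem_filter.1 hz
    rw [Finset.mem_erase]
    constructor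
    · intro h0
      exact hd z hz'.1 (sub_eq_zero.1 h0 ▸ hx)
    · have := hz'.2
      unfold bx
      rw [Finset.mem_product, Finset.mem_Icc, Finset.mem_Icc]
      unfold nv at this
      omega
  calc ∑ x ∈ X, ∑ z ∈ E, (if nv (z - x) ≤ m then (nv (z - x) : ℝ) ^ (-(25/48) : ℝ) else 0)
      ≤ ∑ x ∈ X, 16 * (m : ℝ) ^ (71/48 : ℝ) := Finset.sum_le_sum h4
    _ = _ := by rw [Finset.sum_const, nsmul_eq_mul]

open Classical in
/-- summing over the new point -/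
theorem W_sum {A : ℝ} (hA : 1 ≤ A) {m N : ℕ} (hm : 1 ≤ m) {X E : Finset Vtx}
    (hd : ∀ z ∈ E, z ∉ X) (hE : E.card ≤ N * m ^ 2) :
    ∑ z ∈ E, W A m (insert z X) ≤ 16 * A * (m : ℝ) ^ (91/48 : ℝ) * (N + X.card) * W A m X := by
  have hm0 : (0:ℝ) < m := by exact_mod_cast hm
  have hW := W_nonneg (show 0 ≤ A by linarith) m X
  have h1 : ∑ z ∈ E, W A m (insert z X) ≤ ∑ z ∈ E, (A * (m : ℝ) ^ (20/48 : ℝ) * W A m X) *
      (dd m (insert z X) z : ℝ) ^ (-(25/48) : ℝ) := by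
    apply Finset.sum_le_sum
    intro z hz
    refine (W_insert hA hm (hd z hz)).trans (le_of_eq ?_)
    ring
  rw [← Finset.mul_sum] at h1
  refine h1.trans ?_
  have h2 := sum_dd hm hd
  have hEr : (E.card : ℝ) ≤ N * (m:ℝ) ^ 2 := by exact_mod_cast hE
  have e1 : (m:ℝ) ^ (20/48 : ℝ) * (m:ℝ) ^ (71/48 : ℝ) = (m:ℝ) ^ (91/48 : ℝ) := by
    rw [← Real.rpow_add hm0]; norm_num
  have e2 : (m:ℝ) ^ (20/48 : ℝ) * ((m:ℝ) ^ 2 * (m:ℝ) ^ (-(25/48) : ℝ)) = (m:ℝ) ^ (91/48 : ℝ) := by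
    rw [← Real.rpow_natCast, ← Real.rpow_add hm0, ← Real.rpow_add hm0]; norm_num
  have hV : 0 < (m:ℝ) ^ (91/48 : ℝ) := by positivity
  have h3 : ∑ z ∈ E, (dd m (insert z X) z : ℝ) ^ (-(25/48) : ℝ) ≤
      N * ((m:ℝ) ^ 2 * (m : ℝ) ^ (-(25/48) : ℝ)) + X.card * (16 * (m : ℝ) ^ (71/48 : ℝ)) := by
    refine h2.trans (add_le_add ?_ le_rfl)
    rw [← mul_assoc]
    exact mul_le_mul_of_nonneg_right hEr (by positivity)
  calc (A * (m : ℝ) ^ (20/48 : ℝ) * W A m X) *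
      ∑ z ∈ E, (dd m (insert z X) z : ℝ) ^ (-(25/48) : ℝ)
      ≤ (A * (m : ℝ) ^ (20/48 : ℝ) * W A m X) *
        (N * ((m:ℝ) ^ 2 * (m : ℝ) ^ (-(25/48) : ℝ)) + X.card * (16 * (m : ℝ) ^ (71/48 : ℝ))) :=
        mul_le_mul_of_nonneg_left h3 (by positivity)
    _ = A * W A m X * (N * ((m:ℝ) ^ (20/48 : ℝ) * ((m:ℝ) ^ 2 * (m:ℝ) ^ (-(25/48) : ℝ))) +
        16 * X.card * ((m:ℝ) ^ (20/48 : ℝ) * (m:ℝ) ^ (71/48 : ℝ))) := by ring
    _ = A * W A m X * (m:ℝ) ^ (91/48 : ℝ) * (N + 16 * X.card) := by rw [e1, e2]; ring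
    _ ≤ A * W A m X * (m:ℝ) ^ (91/48 : ℝ) * (16 * (N + X.card)) := by
        apply mul_le_mul_of_nonneg_left _ (by positivity)
        have : (0:ℝ) ≤ N := by positivity
        linarith
    _ = _ := by ring

end CS871
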