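import Pool.Agent.Run7.h871.CS.Inf

/-!
The four bounds of the cluster size law.
-/

set_option autoImplicit false

namespace CS871

open Finset H974 H31K Pool.Agent.H160R2.CV Pool.Agent.H160R2.CV.Quad MeasureTheory T213

/-- LOWSUB: lower bound at and below the critical point; from `S_SND` (sizes up to the
characteristic one, scale `m = r ≤ ξ`, `tp_lower`) and `S_CHAIN` (larger sizes, `nearG`). -/
def S_LOWSUB : Prop := ∃ c C : ℝ, 0 < c ∧ 0 < C ∧ ∀ p : unitInterval, (1/4 : ℝ) ≤ p →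
  (p : ℝ) ≤ 1/2 → ∀ n : ℕ, 1 ≤ n →
    c * (n : ℝ) ^ (-(5/91) : ℝ) * Real.exp (-(C * (n * (1/2 - (p:ℝ)) ^ (91/36 : ℝ)))) ≤ szFin p n

/-- LOWSUP: lower bound above the critical point; from `S_SND` (sizes up to the characteristic one
at the parameter `1/2`, larger sizes with `m ~ ξ` and `r = C ξ (n / ξ^(91/48))^(1/2)` at `p`, where
the two-point bound comes from arms at `p` (`theta_bounds`) and crossings at `1/2`), `event_blk` and
`blk_lower`. -/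
def S_LOWSUP : Prop := ∃ c C : ℝ, 0 < c ∧ 0 < C ∧ ∀ p : unitInterval, (1/2 : ℝ) < p →
  (p : ℝ) ≤ 3/4 → ∀ n : ℕ, 1 ≤ n →
    c * (n : ℝ) ^ (-(5/91) : ℝ) * Real.exp (-(C * Real.sqrt (n * ((p:ℝ) - 1/2) ^ (91/36 : ℝ)))) ≤
      szFin p n

/-- UPSUB: upper bound at and below the critical point -/
def S_UPSUB : Prop := ∃ c C : ℝ, 0 < c ∧ 0 < C ∧ ∀ p : unitInterval,
  (p : ℝ) ≤ 1/2 → ∀ n : ℕ, 1 ≤ n →
    szFin p n ≤
      C * (n : ℝ) ^ (-(5/91) : ℝ) * Real.exp (-(c * (n * (1/2 - (p:ℝ)) ^ (91/36 : ℝ))))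

/-- UPSUP: upper bound above the critical point -/
def S_UPSUP : Prop := ∃ c C : ℝ, 0 < c ∧ 0 < C ∧ ∀ p : unitInterval, (1/2 : ℝ) < p →
  ∀ n : ℕ, 1 ≤ n →
    szFin p n ≤
      C * (n : ℝ) ^ (-(5/91) : ℝ) *
        Real.exp (-(c * Real.sqrt (n * ((p:ℝ) - 1/2) ^ (91/36 : ℝ))))

end CS871
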