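import Pool.Agent.Run7.h871.CS.Up

/-!
Passage to the infinite volume.
-/

set_option autoImplicit false

namespace CS871

open Finset H974 H31K Pool.Agent.H160R2.CV Pool.Agent.H160R2.CV.Quad MeasureTheory T213

/-- The probability that the open cluster of the origin is finite and has at least `n` vertices. -/
noncomputable def szFin (p : unitInterval) (n : ℕ) : ℝ :=
  (bondLaw p).real {ω | n ≤ (cluster0 ω).ncard ∧ (cluster0 ω).Finite}

/-- a path whose vertices are all inside the box stays in the box -/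
theorem reach_inside {G : Set Edg} {K : ℕ} {v : Vtx}
    (hin : ∀ w, Reach G (0, 0) w → nv w < K) (h : Reach G (0, 0) v) :
    Reach (G ∩ ↑(boxE K)) (0, 0) v := by
  induction h with
  | refl => exact Reach.refl _ _
  | @tail w w' hw hs ih =>
    have h1 : nv w < K := hin w hw
    have h2 : nv w' < K := hin w' (Relation.ReflTransGen.tail hw hs)
    refine Relation.ReflTransGen.tail ih ?_
    obtain ⟨e, he, hcase⟩ := hs
    refine ⟨e, ⟨he, ?_⟩, hcase⟩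
    rw [Finset.mem_coe]
    obtain ⟨x, y, bo⟩ := e
    unfold nv at h1 h2
    unfold boxE
    cases bo
    · rw [mem_RE_false]
      simp only [src_mk, tgt_false] at hcase
      rcases hcase with ⟨h3, h4⟩ | ⟨h3, h4⟩
      · rw [← h3] at h1; rw [← h4] at h2
        simp only at h1 h2; omega
      · rw [← h3] at h2; rw [← h4] at h1
        simp only at h1 h2; omega
    · rw [mem_RE_true]
      simp only [src_mk, tgt_true] at hcase
      rcases hcase with ⟨h3, h4⟩ | ⟨h3, h4⟩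
      · rw [← h3] at h1; rw [← h4] at h2
        simp only at h1 h2; omega
      · rw [← h3] at h2; rw [← h4] at h1
        simp only at h1 h2; omega

theorem nv_lt_of_not_arm {G : Set Edg} {K : ℕ}
    (h : ¬ ∃ v, onB K v ∧ Reach (G ∩ ↑(boxE K)) (0, 0) v) {w : Vtx} (hw : Reach G (0, 0) w) :
    nv w < K := by
  by_contra hc
  apply h
  obtain ⟨v, k1, k2, k3⟩ := first_exit (a := -(K:ℤ)) (b := K) (c := -(K:ℤ)) (d := K)
    (by unfold inR; simp) hw (by unfold nv at hc; omega)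
  exact ⟨v, ⟨k1, k2⟩, k3⟩

/-- outside the arm event the cluster is the cluster in the box -/
theorem cluster_eq {ω : sqLattice.edgeSet → Bool} {K : ℕ} (h : ω ∉ ArmE K) :
    cluster0 ω = ↑(cF K (FF (boxE K) ω)) := by
  rw [armE_iff] at h
  have hin : ∀ w, Reach (opn ω) (0, 0) w → nv w < K := fun w hw => nv_lt_of_not_arm h hw
  ext u
  rw [Finset.mem_coe, mem_cF, FF_coe]
  constructor
  · intro hu
    have hr : Reach (opn ω) (0, 0) u := (open_reach ω _ _).mp hu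
    exact ⟨(hin u hr).le, reach_inside hin hr⟩
  · rintro ⟨-, hu⟩
    exact (open_reach ω _ _).mpr (hu.mono Set.inter_subset_left)

theorem inf_local (p : unitInterval) (n K : ℕ) :
    (bondLaw p).real {ω | n ≤ (cluster0 ω).ncard ∧ ω ∉ ArmE K} ≤
      Pr (fun _ => (p:ℝ)) (boxE K) (fun F => n ≤ (cF K F).card ∧ ¬ Arm K F) := by
  rw [← law_event p (boxE K) (fun F => n ≤ (cF K F).card ∧ ¬ Arm K F)]
  refine measureReal_mono ?_ (measure_ne_top _ _)
  rintro ω ⟨h1, h2⟩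
  rw [cluster_eq h2, Set.ncard_coe_finset] at h1
  exact ⟨h1, h2⟩

theorem sz_le_box (p : unitInterval) (n K : ℕ) : szFin p n ≤
    (bondLaw p).real {ω | ω ∈ ArmE K ∧ (cluster0 ω).Finite} +
      Pr (fun _ => (p:ℝ)) (boxE K) (fun F => n ≤ (cF K F).card ∧ ¬ Arm K F) := by
  refine le_trans ?_ (add_le_add le_rfl (inf_local p n K))
  unfold szFin
  refine le_trans (measureReal_mono ?_ (measure_ne_top _ _)) (measureReal_union_le _ _)
  rintro ω ⟨h1, h2⟩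
  by_cases h : ω ∈ ArmE K
  · exact Or.inl ⟨h, h2⟩
  · exact Or.inr ⟨h1, h⟩

theorem sz_le_all (p : unitInterval) (n : ℕ) {B : ℝ} (hB : 0 ≤ B)
    (h : ∀ K : ℕ, Pr (fun _ => (p:ℝ)) (boxE K) (fun F => n ≤ (cF K F).card ∧ ¬ Arm K F) ≤ B) :
    szFin p n ≤ B := by
  unfold szFin
  exact real_finite_le p (E := {ω | n ≤ (cluster0 ω).ncard}) hB
    (fun K => (inf_local p n K).trans (h K))

theorem sz_le_one (p : unitInterval) (n : ℕ) : szFin p n ≤ 1 := measureReal_le_one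

/-! ### scales -/

theorem armUp_of {p C : ℝ} (h0 : 0 ≤ p) (h1 : p ≤ 1) (hC : 0 < C) {m : ℕ}
    (h : ∀ j : ℕ, 1 ≤ j → j ≤ m → arm p j ≤ C * (j:ℝ) ^ (-(5/48) : ℝ)) :
    ArmUp p (4 * C + 3) m := by
  intro d hd hdm
  have hd0 : (0:ℝ) < d := by exact_mod_cast hd
  have hdp : 0 < (d:ℝ) ^ (-(5/48) : ℝ) := by positivity
  rcases lt_or_ge d 3 with h3 | h3
  · have h4 := tiny hd h3 (a := 5/48) (by norm_num) (by norm_num)
    have h5 := arm_le_one h0 h1 ((d - 1) / 2)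
    have h6 : 0 ≤ 4 * C * (d:ℝ) ^ (-(5/48) : ℝ) := by positivity
    linarith
  · obtain ⟨k, hk⟩ : ∃ k : ℕ, k = (d - 1) / 2 := ⟨_, rfl⟩
    have hk1 : 1 ≤ k := by omega
    have hk4 : d ≤ 4 * k := by omega
    have hk4' : (d:ℝ) ≤ 4 * k := by exact_mod_cast hk4
    rw [← hk]
    have h5 := h k hk1 (by omega)
    have h6 : (k:ℝ) ^ (-(5/48) : ℝ) ≤ 4 * (d:ℝ) ^ (-(5/48) : ℝ) := by
      apply rpow_quarter hd0 _ (by norm_num) (by norm_num)
      linarith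
    have h7 : C * (k:ℝ) ^ (-(5/48) : ℝ) ≤ C * (4 * (d:ℝ) ^ (-(5/48) : ℝ)) :=
      mul_le_mul_of_nonneg_left h6 hC.le
    linarith

theorem armUp_sub : ∃ A : ℝ, 1 ≤ A ∧ ∀ (p : ℝ) (m : ℕ), 0 ≤ p → p ≤ 1/2 → ArmUp p A m := by
  obtain ⟨c, C, hc, hC, h⟩ := Pool.Agent.W424.NC.arm_upper
  refine ⟨4 * C + 3, by linarith, ?_⟩
  intro p m h0 h1
  apply armUp_of h0 (by linarith) hC
  intro j hj _
  refine (h p h0 h1 j hj).trans ?_
  have h2 : Real.exp (-(c * (j * (1/2 - p)^(4/3 : ℝ)))) ≤ 1 := by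
    rw [Real.exp_le_one_iff]
    have h3 : 0 ≤ (1/2 - p)^(4/3 : ℝ) := Real.rpow_nonneg (by linarith) _
    have : 0 ≤ c * (j * (1/2 - p)^(4/3 : ℝ)) := by positivity
    linarith
  calc C * (j:ℝ) ^ (-(5/48) : ℝ) * Real.exp (-(c * (j * (1/2 - p)^(4/3 : ℝ))))
      ≤ C * (j:ℝ) ^ (-(5/48) : ℝ) * 1 := mul_le_mul_of_nonneg_left h2 (by positivity)
    _ = _ := mul_one _

theorem armUp_sup : ∃ A : ℝ, 1 ≤ A ∧ ∀ (p : ℝ) (m : ℕ), 1/2 ≤ p → p ≤ 1 →
    (m:ℝ) * (p - 1/2)^(4/3 : ℝ) ≤ 1 → ArmUp p A m := by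
  obtain ⟨C, hC, h⟩ := arm_sup (A := 1) one_pos
  refine ⟨4 * C + 3, by linarith, ?_⟩
  intro p m h0 h1 hm
  apply armUp_of (by linarith) h1 hC
  intro j hj hjm
  apply h p j h0 h1 hj
  have h3 : 0 ≤ (p - 1/2)^(4/3 : ℝ) := Real.rpow_nonneg (by linarith) _
  refine (mul_le_mul_of_nonneg_right ?_ h3).trans hm
  exact_mod_cast hjm

/-! ### the sizes below the characteristic size -/

theorem pow_lt_of_log {x : ℝ} (hx : 1 ≤ x) : ∃ I : ℕ, (2:ℝ) ^ I ≤ x ∧ x < 2 ^ (I + 1) := by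
  obtain ⟨q, hq⟩ : ∃ q : ℕ, q = ⌊x⌋₊ := ⟨_, rfl⟩
  have hq1 : 1 ≤ q := by rw [hq]; exact Nat.le_floor (by exact_mod_cast hx)
  have hqx : (q:ℝ) ≤ x := by rw [hq]; exact Nat.floor_le (by linarith)
  have hxq : x < q + 1 := by rw [hq]; exact Nat.lt_floor_add_one x
  refine ⟨Nat.log 2 q, ?_, ?_⟩
  · have h1 : 2 ^ Nat.log 2 q ≤ q := Nat.pow_log_le_self 2 (by omega)
    have h2 : ((2:ℝ) ^ Nat.log 2 q) ≤ q := by exact_mod_cast h1
    linarith
  · have h1 : q + 1 ≤ 2 ^ (Nat.log 2 q + 1) := Nat.lt_pow_succ_log_self (by norm_num) q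
    have h2 : ((q:ℝ) + 1) ≤ 2 ^ (Nat.log 2 q + 1) := by exact_mod_cast h1
    linarith

theorem LA_arm {F : Finset Edg} {m : ℕ} {u : Vtx} (hu : m ≤ nv u)
    (hr : Reach (↑F : Set Edg) (0, 0) u) : LA (0, 0) m F := by
  apply LA_of_reach (u := u) _ hr
  have : u - (0, 0) = u := by
    ext <;> simp
  rw [this]; exact hu

/-- clusters of a box of radius `2 M`, at the size `n ≥ M ^ (91/48)` -/
theorem box2 {A : ℝ} (hA : 1 ≤ A) : ∃ C : ℝ, 0 < C ∧
    ∀ (p : unitInterval) (I n : ℕ), ArmUp p A (2 ^ I) → 10 ≤ n →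
      ((2:ℝ) ^ I) ^ (91/48 : ℝ) ≤ n → szFin p n ≤ C * ((2:ℝ) ^ I) ^ (-(5/48) : ℝ) := by
  obtain ⟨c, C, hc, hC, h⟩ := dyadic hA
  refine ⟨C + A, by linarith, ?_⟩
  intro p I n hUp hn hnM
  have h0 := p.2.1
  have h1 := p.2.2
  refine (sz_le_box p n (2 ^ (I + 1))).trans ?_
  have hM0 : 0 < (2:ℝ) ^ I := by positivity
  have e1 : (bondLaw p).real {ω | ω ∈ ArmE (2 ^ (I + 1)) ∧ (cluster0 ω).Finite} ≤
      A * ((2:ℝ) ^ I) ^ (-(5/48) : ℝ) := by
    have h2 : (bondLaw p).real {ω | ω ∈ ArmE (2 ^ (I + 1)) ∧ (cluster0 ω).Finite} ≤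
        arm p (2 ^ (I + 1)) := by
      rw [← law_armE]
      exact measureReal_mono (fun ω hω => hω.1) (measure_ne_top _ _)
    have h3 : arm p (2 ^ (I + 1)) ≤ arm p ((2 ^ I - 1) / 2) := by
      apply arm_anti h0 h1
      rw [pow_succ]
      have : 1 ≤ 2 ^ I := Nat.one_le_two_pow
      omega
    have h4 := hUp (2 ^ I) Nat.one_le_two_pow le_rfl
    push_cast at h4
    linarith
  have e2 : Pr (fun _ => (p:ℝ)) (boxE (2 ^ (I + 1)))
      (fun F => n ≤ (cF (2 ^ (I + 1)) F).card ∧ ¬ Arm (2 ^ (I + 1)) F) ≤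
      C * ((2:ℝ) ^ I) ^ (-(5/48) : ℝ) := by
    refine le_trans (Pr_mono (okq h0 h1) ?_) ((h p I n (2 ^ (I + 1)) h0 h1 hUp hn hnM).trans ?_)
    · rintro F _ ⟨k1, k2⟩
      exact ⟨k1, fun u hu => nv_lt_of_not_arm k2 hu⟩
    · have h5 : Real.exp (-(c * (n / ((2:ℝ) ^ I) ^ (91/48 : ℝ)))) ≤ 1 := by
        rw [Real.exp_le_one_iff]
        have : 0 ≤ c * (n / ((2:ℝ) ^ I) ^ (91/48 : ℝ)) := by positivity
        linarith
      calc C * ((2:ℝ) ^ I) ^ (-(5/48) : ℝ) * Real.exp (-(c * (n / ((2:ℝ) ^ I) ^ (91/48 : ℝ))))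
          ≤ C * ((2:ℝ) ^ I) ^ (-(5/48) : ℝ) * 1 := mul_le_mul_of_nonneg_left h5 (by positivity)
        _ = _ := mul_one _
  linarith

/-- sizes up to a multiple of the characteristic one -/
theorem small_sizes {A Y : ℝ} (hA : 1 ≤ A) (hY : 1 ≤ Y) : ∃ C : ℝ, 0 < C ∧
    ∀ (p : unitInterval) (I n : ℕ), ArmUp p A (2 ^ I) → 1 ≤ n →
      (n:ℝ) ≤ Y * ((2:ℝ) ^ I) ^ (91/48 : ℝ) → szFin p n ≤ C * (n:ℝ) ^ (-(5/91) : ℝ) := by
  obtain ⟨C, hC, h⟩ := box2 hA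
  refine ⟨2 * C + C * Y + 10, by positivity, ?_⟩
  intro p I n hUp hn hnY
  have hn0 : (0:ℝ) < n := by exact_mod_cast hn
  have hn1 : (1:ℝ) ≤ n := by exact_mod_cast hn
  have hnp : 0 < (n:ℝ) ^ (-(5/91) : ℝ) := by positivity
  rcases lt_or_ge n 10 with h10 | h10
  · have h1 := sz_le_one p n
    have h2 : (1:ℝ) ≤ 10 * (n:ℝ) ^ (-(5/91) : ℝ) := by
      rw [Real.rpow_neg hn0.le, ← div_eq_mul_inv, le_div_iff₀ (by positivity), one_mul]
      calc (n:ℝ) ^ (5/91 : ℝ) ≤ (n:ℝ) ^ (1 : ℝ) :=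
            Real.rpow_le_rpow_of_exponent_le hn1 (by norm_num)
        _ = n := Real.rpow_one _
        _ ≤ 10 := by exact_mod_cast h10.le
    have h3 : 0 ≤ (2 * C + C * Y) * (n:ℝ) ^ (-(5/91) : ℝ) := by positivity
    linarith
  · rcases le_or_gt (((2:ℝ) ^ I) ^ (91/48 : ℝ)) n with hle | hgt
    · have h1 := h p I n hUp h10 hle
      obtain ⟨M, hM⟩ : ∃ M : ℝ, M = (2:ℝ) ^ I := ⟨_, rfl⟩
      have hM0 : 0 < M := by rw [hM]; positivity
      rw [← hM] at h1 hnY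
      have h2 : M ^ (-(5/48) : ℝ) ≤ Y * (n:ℝ) ^ (-(5/91) : ℝ) := by
        have e1 : M ^ (-(5/48) : ℝ) = (M ^ (91/48 : ℝ)) ^ (-(5/91) : ℝ) := by
          rw [← Real.rpow_mul hM0.le]; norm_num
        have h3 : (n:ℝ) / Y ≤ M ^ (91/48 : ℝ) := by
          rw [div_le_iff₀ (by linarith)]; linarith
        have hY0 : 0 < Y := by linarith
        rw [e1]
        calc (M ^ (91/48 : ℝ)) ^ (-(5/91) : ℝ) ≤ ((n:ℝ) / Y) ^ (-(5/91) : ℝ) :=
              Real.rpow_le_rpow_of_nonpos (by positivity) h3 (by norm_num)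
          _ = Y ^ (5/91 : ℝ) * (n:ℝ) ^ (-(5/91) : ℝ) := by
              rw [Real.div_rpow hn0.le hY0.le, Real.rpow_neg hY0.le, div_inv_eq_mul, mul_comm]
          _ ≤ _ := by
              apply mul_le_mul_of_nonneg_right _ hnp.le
              calc Y ^ (5/91 : ℝ) ≤ Y ^ (1:ℝ) :=
                    Real.rpow_le_rpow_of_exponent_le hY (by norm_num)
                _ = Y := Real.rpow_one _
      have h4 : C * M ^ (-(5/48) : ℝ) ≤ C * (Y * (n:ℝ) ^ (-(5/91) : ℝ)) :=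
        mul_le_mul_of_nonneg_left h2 hC.le
      have h5 : 0 ≤ (2 * C + 10) * (n:ℝ) ^ (-(5/91) : ℝ) := by positivity
      linarith
    · -- a smaller scale
      obtain ⟨x, hx⟩ : ∃ x : ℝ, x = (n:ℝ) ^ (48/91 : ℝ) := ⟨_, rfl⟩
      have hx1 : 1 ≤ x := by rw [hx]; exact Real.one_le_rpow hn1 (by norm_num)
      have hx0 : 0 < x := by linarith
      obtain ⟨J, hJ1, hJ2⟩ := pow_lt_of_log hx1
      have hxn : x ^ (91/48 : ℝ) = n := by
        rw [hx, ← Real.rpow_mul hn0.le]; norm_num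
      have hJI : J ≤ I := by
        by_contra hc
        have h1 : (2:ℝ) ^ I ≤ 2 ^ J := pow_le_pow_right₀ (by norm_num) (by omega)
        have h2 : ((2:ℝ) ^ I) ^ (91/48 : ℝ) ≤ x ^ (91/48 : ℝ) :=
          Real.rpow_le_rpow (by positivity) (h1.trans hJ1) (by norm_num)
        linarith
      have h1 := h p J n (hUp.anti (Nat.pow_le_pow_right (by norm_num) hJI)) h10 (by
        rw [← hxn]
        exact Real.rpow_le_rpow (by positivity) hJ1 (by norm_num))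
      have h2 : ((2:ℝ) ^ J) ^ (-(5/48) : ℝ) ≤ 2 * (n:ℝ) ^ (-(5/91) : ℝ) := by
        have h3 : x / 2 ≤ (2:ℝ) ^ J := by
          rw [pow_succ] at hJ2; linarith
        calc ((2:ℝ) ^ J) ^ (-(5/48) : ℝ) ≤ (x / 2) ^ (-(5/48) : ℝ) :=
              Real.rpow_le_rpow_of_nonpos (by positivity) h3 (by norm_num)
          _ = (2:ℝ) ^ (5/48 : ℝ) * x ^ (-(5/48) : ℝ) := by
              rw [Real.div_rpow hx0.le (by norm_num), Real.rpow_neg (by norm_num : (0:ℝ) ≤ 2),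
                div_inv_eq_mul, mul_comm]
          _ = (2:ℝ) ^ (5/48 : ℝ) * (n:ℝ) ^ (-(5/91) : ℝ) := by
              rw [hx, ← Real.rpow_mul hn0.le]; norm_num
          _ ≤ _ := by
              apply mul_le_mul_of_nonneg_right _ hnp.le
              calc (2:ℝ) ^ (5/48 : ℝ) ≤ 2 ^ (1:ℝ) :=
                    Real.rpow_le_rpow_of_exponent_le (by norm_num) (by norm_num)
                _ = 2 := Real.rpow_one _
      have h4 : C * ((2:ℝ) ^ J) ^ (-(5/48) : ℝ) ≤ C * (2 * (n:ℝ) ^ (-(5/91) : ℝ)) :=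
        mul_le_mul_of_nonneg_left h2 hC.le
      have h5 : 0 ≤ (C * Y + 10) * (n:ℝ) ^ (-(5/91) : ℝ) := by positivity
      linarith

end CS871
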