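import Pool.Agent.Run7.h871.CS.UpSub

/-!
The cluster size law, given the four bounds.
-/

set_option autoImplicit false

namespace CS871

/-- The four bounds together. -/
theorem law_of (h1 : S_LOWSUB) (h2 : S_LOWSUP) (h3 : S_UPSUB) (h4 : S_UPSUP) :
    ∃ c C : ℝ, 0 < c ∧ 0 < C ∧ ∀ (p : unitInterval) (n : ℕ), 1/4 ≤ (p:ℝ) → (p:ℝ) ≤ 3/4 → 1 ≤ n →
      ((p:ℝ) ≤ 1/2 →
        c * (n:ℝ) ^ (-(5/91) : ℝ) * Real.exp (-(C * (n * |(p:ℝ) - 1/2| ^ (91/36 : ℝ)))) ≤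
            szFin p n ∧
          szFin p n ≤
            C * (n:ℝ) ^ (-(5/91) : ℝ) * Real.exp (-(c * (n * |(p:ℝ) - 1/2| ^ (91/36 : ℝ))))) ∧
      ((1/2 : ℝ) < p →
        c * (n:ℝ) ^ (-(5/91) : ℝ) *
            Real.exp (-(C * Real.sqrt (n * |(p:ℝ) - 1/2| ^ (91/36 : ℝ)))) ≤ szFin p n ∧
          szFin p n ≤
            C * (n:ℝ) ^ (-(5/91) : ℝ) *
              Real.exp (-(c * Real.sqrt (n * |(p:ℝ) - 1/2| ^ (91/36 : ℝ))))) := by
  obtain ⟨c1, C1, hc1, hC1, k1⟩ := h1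
  obtain ⟨c2, C2, hc2, hC2, k2⟩ := h2
  obtain ⟨c3, C3, hc3, hC3, k3⟩ := h3
  obtain ⟨c4, C4, hc4, hC4, k4⟩ := h4
  obtain ⟨c, hc⟩ : ∃ c : ℝ, c = min (min c1 c2) (min c3 c4) := ⟨_, rfl⟩
  obtain ⟨C, hC⟩ : ∃ C : ℝ, C = max (max C1 C2) (max C3 C4) := ⟨_, rfl⟩
  have q1 : c ≤ c1 := by rw [hc]; exact (min_le_left _ _).trans (min_le_left _ _)
  have q2 : c ≤ c2 := by rw [hc]; exact (min_le_left _ _).trans (min_le_right _ _)
  have q3 : c ≤ c3 := by rw [hc]; exact (min_le_right _ _).trans (min_le_left _ _)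
  have q4 : c ≤ c4 := by rw [hc]; exact (min_le_right _ _).trans (min_le_right _ _)
  have r1 : C1 ≤ C := by rw [hC]; exact (le_max_left _ _).trans (le_max_left _ _)
  have r2 : C2 ≤ C := by rw [hC]; exact (le_max_right _ _).trans (le_max_left _ _)
  have r3 : C3 ≤ C := by rw [hC]; exact (le_max_left _ _).trans (le_max_right _ _)
  have r4 : C4 ≤ C := by rw [hC]; exact (le_max_right _ _).trans (le_max_right _ _)
  have hc0 : 0 < c := by rw [hc]; positivity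
  have hC0 : 0 < C := hC1.trans_le r1
  refine ⟨c, C, hc0, hC0, ?_⟩
  intro p n hp1 hp2 hn
  have hq : 0 ≤ (n:ℝ) ^ (-(5/91) : ℝ) := by positivity
  constructor
  · intro hp
    have e : |(p:ℝ) - 1/2| = 1/2 - p := by rw [abs_of_nonpos (by linarith)]; ring
    rw [e]
    have hy : 0 ≤ (n:ℝ) * (1/2 - (p:ℝ)) ^ (91/36 : ℝ) :=
      mul_nonneg (by positivity) (Real.rpow_nonneg (by linarith) _)
    exact ⟨T213.weak_low hq hy hc0.le q1 r1 (k1 p hp1 hp n hn),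
      T213.weak_up hq hy hC3.le q3 r3 (k3 p hp n hn)⟩
  · intro hp
    have e : |(p:ℝ) - 1/2| = p - 1/2 := abs_of_pos (by linarith)
    rw [e]
    have hy : 0 ≤ Real.sqrt ((n:ℝ) * ((p:ℝ) - 1/2) ^ (91/36 : ℝ)) := Real.sqrt_nonneg _
    exact ⟨T213.weak_low hq hy hc0.le q2 r2 (k2 p hp hp2 n hn),
      T213.weak_up hq hy hC4.le q4 r4 (k4 p hp n hn)⟩

end CS871
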