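import Pool.Agent.Run7.h871.CS.Mom

/-!
Exponential moments of the number of vertices with an arm: `S_TAIL`.
-/

set_option autoImplicit false

namespace CS871

open Finset H974 H31K Pool.Agent.H160R2.CV Pool.Agent.H160R2.CV.Quad

/-- double counting -/
theorem dbl (E : Finset Vtx) (k : ℕ) (f : Finset Vtx → ℝ) :
    ((k:ℝ) + 1) * ∑ Y ∈ E.powersetCard (k + 1), f Y =
      ∑ X ∈ E.powersetCard k, ∑ z ∈ E \ X, f (insert z X) := by
  have h1 : ((k:ℝ) + 1) * ∑ Y ∈ E.powersetCard (k + 1), f Y =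
      ∑ Y ∈ E.powersetCard (k + 1), ∑ _z ∈ Y, f Y := by
    rw [Finset.mul_sum]
    apply Finset.sum_congr rfl
    intro Y hY
    rw [Finset.sum_const, nsmul_eq_mul, (Finset.mem_powersetCard.1 hY).2]
    push_cast
    ring
  rw [h1, Finset.sum_sigma', Finset.sum_sigma']
  refine Finset.sum_bij' (fun q _ => ⟨q.1.erase q.2, q.2⟩) (fun q _ => ⟨insert q.2 q.1, q.2⟩)
    ?_ ?_ ?_ ?_ ?_
  · rintro ⟨Y, z⟩ h
    rw [Finset.mem_sigma, Finset.mem_powersetCard] at h
    obtain ⟨⟨h1, h2⟩, h3⟩ := h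
    rw [Finset.mem_sigma, Finset.mem_powersetCard, Finset.mem_sdiff]
    simp only at h3 ⊢
    refine ⟨⟨(Finset.erase_subset _ _).trans h1, ?_⟩, h1 h3, Finset.notMem_erase _ _⟩
    rw [Finset.card_erase_of_mem h3, h2]
    omega
  · rintro ⟨X, z⟩ h
    rw [Finset.mem_sigma, Finset.mem_powersetCard, Finset.mem_sdiff] at h
    obtain ⟨⟨h1, h2⟩, h3, h4⟩ := h
    rw [Finset.mem_sigma, Finset.mem_powersetCard]
    simp only at h3 h4 ⊢
    refine ⟨⟨Finset.insert_subset h3 h1, ?_⟩, Finset.mem_insert_self _ _⟩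
    rw [Finset.card_insert_of_notMem h4, h2]
  · rintro ⟨Y, z⟩ h
    rw [Finset.mem_sigma] at h
    simp only at h ⊢
    rw [Finset.insert_erase h.2]
  · rintro ⟨X, z⟩ h
    rw [Finset.mem_sigma, Finset.mem_sdiff] at h
    simp only at h ⊢
    rw [Finset.erase_insert h.2.2]
  · rintro ⟨Y, z⟩ h
    rw [Finset.mem_sigma] at h
    simp only at h ⊢
    rw [Finset.insert_erase h.2]

/-- the sum of the weights of the sets of size `k` -/
noncomputable def bk (A : ℝ) (m : ℕ) (o : Vtx) (E : Finset Vtx) (k : ℕ) : ℝ :=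
  ∑ X ∈ E.powersetCard k, W A m (insert o X)

theorem bk_nonneg {A : ℝ} (hA : 0 ≤ A) (m : ℕ) (o : Vtx) (E : Finset Vtx) (k : ℕ) :
    0 ≤ bk A m o E k := Finset.sum_nonneg fun _ _ => W_nonneg hA _ _

theorem bk_zero (A : ℝ) (m : ℕ) (o : Vtx) (E : Finset Vtx) :
    bk A m o E 0 = A * (m:ℝ) ^ (-(5/48) : ℝ) := by
  unfold bk
  rw [Finset.powersetCard_zero, Finset.sum_singleton, insert_empty_eq, W_single]

theorem bk_rec {A : ℝ} (hA : 1 ≤ A) {m N : ℕ} (hm : 1 ≤ m) {o : Vtx} {E : Finset Vtx}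
    (ho : o ∉ E) (hE : E.card ≤ N * m ^ 2) (k : ℕ) :
    ((k:ℝ) + 1) * bk A m o E (k + 1) ≤
      16 * A * (m : ℝ) ^ (91/48 : ℝ) * (N + k + 1) * bk A m o E k := by
  unfold bk
  rw [dbl, Finset.mul_sum]
  apply Finset.sum_le_sum
  intro X hX
  obtain ⟨h1, h2⟩ := Finset.mem_powersetCard.1 hX
  have e1 : ∑ z ∈ E \ X, W A m (insert o (insert z X)) =
      ∑ z ∈ E \ X, W A m (insert z (insert o X)) :=
    Finset.sum_congr rfl fun z _ => by rw [Finset.insert_comm]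
  rw [e1]
  have h3 := W_sum hA (N := N) hm (X := insert o X) (E := E \ X) (by
    intro z hz hz2
    obtain ⟨k1, k2⟩ := Finset.mem_sdiff.1 hz
    rcases Finset.mem_insert.1 hz2 with h | h
    · exact ho (h ▸ k1)
    · exact k2 h) ((Finset.card_le_card Finset.sdiff_subset).trans hE)
  rw [Finset.card_insert_of_notMem (fun h => ho (h1 h)), h2] at h3
  refine h3.trans (le_of_eq ?_)
  push_cast
  ring

theorem bk_le {A : ℝ} (hA : 1 ≤ A) {m N : ℕ} (hm : 1 ≤ m) {o : Vtx} {E : Finset Vtx}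
    (ho : o ∉ E) (hE : E.card ≤ N * m ^ 2) (k : ℕ) :
    bk A m o E k ≤ (A * (m:ℝ) ^ (-(5/48) : ℝ)) * (16 * A * (m : ℝ) ^ (91/48 : ℝ)) ^ k *
      ((N + k).choose k : ℕ) := by
  induction k with
  | zero => rw [bk_zero]; simp
  | succ k ih =>
    have h1 := bk_rec hA hm ho hE k
    have hk : (0:ℝ) < (k:ℝ) + 1 := by positivity
    have h2 : ((k:ℝ) + 1) * bk A m o E (k + 1) ≤ ((k:ℝ) + 1) *
        ((A * (m:ℝ) ^ (-(5/48) : ℝ)) * (16 * A * (m : ℝ) ^ (91/48 : ℝ)) ^ (k + 1) *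
      ((N + (k + 1)).choose (k + 1) : ℕ)) := by
      refine h1.trans ?_
      have e : (((N + k + 1 : ℕ) : ℝ)) * ((N + k).choose k : ℕ) =
          ((N + (k + 1)).choose (k + 1) : ℕ) * ((k:ℝ) + 1) := by
        have := Nat.add_one_mul_choose_eq (N + k) k
        exact_mod_cast this
      push_cast at e
      calc 16 * A * (m : ℝ) ^ (91/48 : ℝ) * (N + k + 1) * bk A m o E k
          ≤ 16 * A * (m : ℝ) ^ (91/48 : ℝ) * (N + k + 1) *
            ((A * (m:ℝ) ^ (-(5/48) : ℝ)) * (16 * A * (m : ℝ) ^ (91/48 : ℝ)) ^ k *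
              ((N + k).choose k : ℕ)) := mul_le_mul_of_nonneg_left ih (by positivity)
        _ = (A * (m:ℝ) ^ (-(5/48) : ℝ)) * (16 * A * (m : ℝ) ^ (91/48 : ℝ)) ^ (k + 1) *
            (((N:ℝ) + k + 1) * ((N + k).choose k : ℕ)) := by ring
        _ = _ := by rw [e]; ring
    exact le_of_mul_le_mul_left h2 hk

/-- the generating function -/
theorem gen_le {A s : ℝ} (hA : 1 ≤ A) {m N : ℕ} (hm : 1 ≤ m) {o : Vtx} {E : Finset Vtx}
    (ho : o ∉ E) (hE : E.card ≤ N * m ^ 2) (hs : 0 ≤ s)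
    (hs1 : 32 * A * (m : ℝ) ^ (91/48 : ℝ) * s ≤ 1/2) :
    ∑ X ∈ E.powerset, s ^ X.card * W A m (insert o X) ≤
      (A * (m:ℝ) ^ (-(5/48) : ℝ)) * 2 ^ (N + 1) := by
  obtain ⟨x, hx⟩ : ∃ x : ℝ, x = 32 * A * (m : ℝ) ^ (91/48 : ℝ) * s := ⟨_, rfl⟩
  have hx0 : 0 ≤ x := by rw [hx]; positivity
  have hxh : x ≤ 1/2 := by rw [hx]; exact hs1
  have h1 : ∑ X ∈ E.powerset, s ^ X.card * W A m (insert o X) =
      ∑ j ∈ range (E.card + 1), s ^ j * bk A m o E j := by
    rw [Finset.sum_powerset]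
    apply Finset.sum_congr rfl
    intro j _
    unfold bk
    rw [Finset.mul_sum]
    apply Finset.sum_congr rfl
    intro X hX
    rw [(Finset.mem_powersetCard.1 hX).2]
  rw [h1]
  have h2 : ∀ j ∈ range (E.card + 1), s ^ j * bk A m o E j ≤
      (A * (m:ℝ) ^ (-(5/48) : ℝ)) * 2 ^ N * x ^ j := by
    intro j _
    have h3 := bk_le hA hm ho hE j
    have h4 : (((N + j).choose j : ℕ) : ℝ) ≤ 2 ^ (N + j) := by
      exact_mod_cast Nat.choose_le_two_pow (N + j) j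
    calc s ^ j * bk A m o E j ≤ s ^ j * ((A * (m:ℝ) ^ (-(5/48) : ℝ)) *
          (16 * A * (m : ℝ) ^ (91/48 : ℝ)) ^ j * 2 ^ (N + j)) := by
          apply mul_le_mul_of_nonneg_left _ (by positivity)
          exact h3.trans (mul_le_mul_of_nonneg_left h4 (by positivity))
      _ = (A * (m:ℝ) ^ (-(5/48) : ℝ)) * 2 ^ N *
          (s * (16 * A * (m : ℝ) ^ (91/48 : ℝ)) * 2) ^ j := by
          generalize 16 * A * (m : ℝ) ^ (91/48 : ℝ) = B
          rw [pow_add, mul_pow, mul_pow]; ring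
      _ = _ := by
          rw [hx]; congr 2; ring
  refine (Finset.sum_le_sum h2).trans ?_
  rw [← Finset.mul_sum]
  have h5 : ∑ j ∈ range (E.card + 1), x ^ j ≤ 2 := by
    refine (Summable.sum_le_tsum (Finset.range (E.card + 1)) (fun m _ => by positivity)
      (summable_geometric_of_lt_one hx0 (by linarith))).trans ?_
    rw [tsum_geometric_of_lt_one hx0 (by linarith)]
    rw [inv_le_comm₀ (by linarith) (by norm_num)]
    linarith
  calc (A * (m:ℝ) ^ (-(5/48) : ℝ)) * 2 ^ N * ∑ j ∈ range (E.card + 1), x ^ j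
      ≤ (A * (m:ℝ) ^ (-(5/48) : ℝ)) * 2 ^ N * 2 := mul_le_mul_of_nonneg_left h5 (by positivity)
    _ = _ := by rw [pow_succ]; ring

/-- the exponential moment -/
theorem exp_moment {p A s : ℝ} (h0 : 0 ≤ p) (h1 : p ≤ 1) (hA : 1 ≤ A) {m N : ℕ} (hm : 1 ≤ m)
    (hUp : ArmUp p A m) {o : Vtx} {E : Finset Vtx} (ho : o ∉ E) (hE : E.card ≤ N * m ^ 2)
    (hs : 0 ≤ s) (hs1 : 32 * A * (m : ℝ) ^ (91/48 : ℝ) * s ≤ 1/2) (S : Finset Edg) :
    Ex (fun _ => p) S (fun F => ind (LA o m F) * (1 + s) ^ (Ys E m F).card) ≤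
      (A * (m:ℝ) ^ (-(5/48) : ℝ)) * 2 ^ (N + 1) := by
  have ok := okq h0 h1
  refine le_trans ?_ (gen_le hA hm ho hE hs hs1)
  have e1 : ∀ F, F ⊆ S → ind (LA o m F) * (1 + s) ^ (Ys E m F).card =
      ∑ X ∈ E.powerset, s ^ X.card * ind (LA o m F ∧ ∀ x ∈ X, LA x m F) := by
    intro F _
    classical
    have e2 : (1 + s) ^ (Ys E m F).card = ∑ X ∈ (Ys E m F).powerset, s ^ X.card := by
      have := Finset.sum_pow_mul_eq_add_pow s 1 (Ys E m F)
      rw [add_comm] at this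
      rw [← this]
      apply Finset.sum_congr rfl
      intro X _
      rw [one_pow, mul_one]
    have e3 : (Ys E m F).powerset = E.powerset.filter (fun X => ∀ x ∈ X, LA x m F) := by
      ext X
      rw [Finset.mem_powerset, Finset.mem_filter, Finset.mem_powerset]
      unfold Ys
      constructor
      · intro h
        exact ⟨fun x hx => (Finset.mem_filter.1 (h hx)).1,
          fun x hx => (Finset.mem_filter.1 (h hx)).2⟩
      · rintro ⟨h2, h3⟩ x hx
        exact Finset.mem_filter.2 ⟨h2 hx, h3 x hx⟩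
    rw [e2, e3, Finset.sum_filter, Finset.mul_sum]
    apply Finset.sum_congr rfl
    intro X _
    rw [ind_and]
    by_cases h : ∀ x ∈ X, LA x m F
    · rw [if_pos h, ind_of h]; ring
    · rw [if_neg h, ind_not_of h]; ring
  rw [Ex_congr e1, Ex_sum]
  apply Finset.sum_le_sum
  intro X _
  rw [Ex_mul_left]
  apply mul_le_mul_of_nonneg_left _ (by positivity)
  refine le_trans (Pr_mono ok ?_) (pr_W h0 h1 hm hUp (insert o X) S)
  rintro F _ ⟨h2, h3⟩
  apply arms_of_all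
  intro x hx
  rcases Finset.mem_insert.1 hx with h | h
  · rw [h]; exact h2
  · exact h3 x h

theorem one_add_ge_exp {s : ℝ} (hs : 0 ≤ s) (hs1 : s ≤ 1) : Real.exp (s / 2) ≤ 1 + s := by
  have h1 : 1 - s / 2 ≤ Real.exp (-(s / 2)) := by
    have := Real.add_one_le_exp (-(s / 2))
    linarith
  have h2 : Real.exp (s / 2) * Real.exp (-(s / 2)) = 1 := by
    rw [← Real.exp_add]; simp
  have h3 : 0 < Real.exp (s / 2) := Real.exp_pos _
  have h4 : Real.exp (s / 2) * (1 - s / 2) ≤ 1 := by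
    calc _ ≤ Real.exp (s / 2) * Real.exp (-(s / 2)) := mul_le_mul_of_nonneg_left h1 h3.le
      _ = 1 := h2
  have h5 : 1 ≤ (1 + s) * (1 - s / 2) := by nlinarith
  have h6 : 0 < 1 - s / 2 := by linarith
  exact le_of_mul_le_mul_right (h4.trans h5) h6

theorem tail : S_TAIL := by
  classical
  intro A hA
  refine ⟨1 / (128 * A), 4 * A, by positivity, by positivity, ?_⟩
  intro p m N n D S h0 h1 hm hUp hD
  have ok := okq h0 h1
  have hV := V_ge_one hm
  have hm0 : (0:ℝ) < m := by exact_mod_cast hm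
  obtain ⟨V, hVd⟩ : ∃ V : ℝ, V = (m : ℝ) ^ (91/48 : ℝ) := ⟨_, rfl⟩
  rw [← hVd] at hV ⊢
  obtain ⟨s, hs⟩ : ∃ s : ℝ, s = 1 / (64 * A * V) := ⟨_, rfl⟩
  have hs0 : 0 ≤ s := by rw [hs]; positivity
  have hsv : 32 * A * V * s ≤ 1/2 := by
    rw [hs]
    have : 32 * A * V * (1 / (64 * A * V)) = 1/2 := by field_simp; norm_num
    linarith
  have hs1 : s ≤ 1 := by
    rw [hs, div_le_one (by positivity)]
    nlinarith
  obtain ⟨E, hE⟩ : ∃ E : Finset Vtx, E = D.erase (0, 0) := ⟨_, rfl⟩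
  have hEc : E.card ≤ N * m ^ 2 := by
    rw [hE]; exact (Finset.card_le_card (Finset.erase_subset _ _)).trans hD
  have hEo : ((0, 0) : Vtx) ∉ E := by rw [hE]; exact Finset.notMem_erase _ _
  rw [hVd] at hsv
  have hmom := exp_moment h0 h1 hA hm hUp hEo hEc hs0 hsv S
  rw [← hVd] at hsv
  have hcard : ∀ F, (Ys D m F).card ≤ (Ys E m F).card + 1 := by
    intro F
    have hsub : Ys D m F ⊆ insert (0, 0) (Ys E m F) := by
      intro x hx
      unfold Ys at hx ⊢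
      obtain ⟨k1, k2⟩ := Finset.mem_filter.1 hx
      by_cases h : x = (0, 0)
      · rw [h]; exact Finset.mem_insert_self _ _
      · apply Finset.mem_insert_of_mem
        rw [Finset.mem_filter, hE, Finset.mem_erase]
        exact ⟨⟨h, k1⟩, k2⟩
    exact (Finset.card_le_card hsub).trans (Finset.card_insert_le _ _)
  have h2 : (1 + s) ^ n * Pr (fun _ => p) S (fun F => LA (0, 0) m F ∧ n ≤ (Ys D m F).card) ≤
      (1 + s) * ((A * (m:ℝ) ^ (-(5/48) : ℝ)) * 2 ^ (N + 1)) := by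
    refine le_trans ?_ (mul_le_mul_of_nonneg_left hmom (by linarith))
    unfold Pr
    rw [← Ex_mul_left, ← Ex_mul_left]
    apply Ex_mono ok
    intro F _
    by_cases h : LA (0, 0) m F ∧ n ≤ (Ys D m F).card
    · rw [ind_of h, ind_of h.1, mul_one, one_mul]
      calc (1 + s) ^ n ≤ (1 + s) ^ ((Ys E m F).card + 1) :=
            pow_le_pow_right₀ (by linarith) (h.2.trans (hcard F))
        _ = _ := by rw [pow_succ]; ring
    · rw [ind_not_of h, mul_zero]
      have := ind_nonneg (LA (0, 0) m F)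
      positivity
  have h3 : Real.exp (n * (s / 2)) ≤ (1 + s) ^ n := by
    rw [Real.exp_nat_mul]
    exact pow_le_pow_left₀ (Real.exp_pos _).le (one_add_ge_exp hs0 hs1) n
  have h4 : (2:ℝ) ^ (N + 1) ≤ 2 * Real.exp (4 * A * N) := by
    have h5 : (2:ℝ) ≤ Real.exp 1 := by
      have := Real.add_one_le_exp (1:ℝ)
      linarith
    have h6 : (2:ℝ) ^ N ≤ Real.exp (4 * A * N) := by
      calc (2:ℝ) ^ N ≤ (Real.exp 1) ^ N := pow_le_pow_left₀ (by norm_num) h5 N
        _ = Real.exp N := by rw [← Real.exp_nat_mul, mul_one]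
        _ ≤ _ := by
          apply Real.exp_le_exp.mpr
          have : (0:ℝ) ≤ N := by positivity
          nlinarith
    rw [pow_succ]
    linarith
  obtain ⟨Q, hQ⟩ : ∃ Q : ℝ, Q = Pr (fun _ => p) S
    (fun F => LA (0, 0) m F ∧ n ≤ (Ys D m F).card) := ⟨_, rfl⟩
  rw [← hQ] at h2 ⊢
  have hQ0 : 0 ≤ Q := by rw [hQ]; exact Pr_nonneg ok _ _
  have hmp : 0 < (m:ℝ) ^ (-(5/48) : ℝ) := by positivity
  have h7 : Real.exp (n * (s / 2)) * Q ≤ 4 * A * (m:ℝ) ^ (-(5/48) : ℝ) * Real.exp (4 * A * N) := by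
    calc Real.exp (n * (s / 2)) * Q ≤ (1 + s) ^ n * Q := mul_le_mul_of_nonneg_right h3 hQ0
      _ ≤ (1 + s) * ((A * (m:ℝ) ^ (-(5/48) : ℝ)) * 2 ^ (N + 1)) := h2
      _ ≤ 2 * ((A * (m:ℝ) ^ (-(5/48) : ℝ)) * (2 * Real.exp (4 * A * N))) := by
          apply mul_le_mul (by linarith) _ (by positivity) (by norm_num)
          exact mul_le_mul_of_nonneg_left h4 (by positivity)
      _ = _ := by ring
  have e5 : Real.exp (4 * A * N - 1 / (128 * A) * (n / V)) =
      Real.exp (4 * A * N) * Real.exp (-(n * (s / 2))) := by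
    rw [← Real.exp_add]
    congr 1
    rw [hs]
    field_simp
    ring
  rw [e5]
  have h8 : Real.exp (-(n * (s / 2))) * Real.exp (n * (s / 2)) = 1 := by
    rw [← Real.exp_add]; simp
  calc Q = Real.exp (-(n * (s / 2))) * (Real.exp (n * (s / 2)) * Q) := by
        rw [← mul_assoc, h8, one_mul]
    _ ≤ Real.exp (-(n * (s / 2))) *
        (4 * A * (m:ℝ) ^ (-(5/48) : ℝ) * Real.exp (4 * A * N)) :=
        mul_le_mul_of_nonneg_left h7 (Real.exp_pos _).le
    _ = _ := by ring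

end CS871
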