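import Pool.Agent.Run7.h871.CS.Tail

/-!
Upper bounds: clusters of a given range of radii, sum over the dyadic scales.
-/

set_option autoImplicit false

namespace CS871

open Finset H974 H31K Pool.Agent.H160R2.CV Pool.Agent.H160R2.CV.Quad MeasureTheory

theorem mem_bx2 {n : ℕ} {x : Vtx} : x ∈ bx n ↔ nv x ≤ n := by
  unfold bx nv
  rw [Finset.mem_product, Finset.mem_Icc, Finset.mem_Icc]
  omega

theorem card_bx2 (n : ℕ) : (bx n).card = (2 * n + 1) ^ 2 := by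
  unfold bx
  rw [Finset.card_product, Int.card_Icc]
  have : ((n : ℤ) + 1 - -(n : ℤ)).toNat = 2 * n + 1 := by omega
  rw [this, sq]

theorem mem_cF {K : ℕ} {F : Finset Edg} {x : Vtx} :
    x ∈ cF K F ↔ nv x ≤ K ∧ Reach (↑F : Set Edg) (0, 0) x := by
  classical
  unfold cF
  rw [Finset.mem_filter, mem_bx2]

theorem nv_zero_sub (x : Vtx) : nv ((0, 0) - x) = nv x := by
  unfold nv
  simp only [Prod.fst_sub, Prod.snd_sub]
  omega

theorem nv_split (u x : Vtx) : nv u ≤ nv x + nv (u - x) := by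
  unfold nv
  simp only [Prod.fst_sub, Prod.snd_sub]
  omega

/-- every vertex of a cluster of radius at least `2 m` has an arm of length `m` -/
theorem LA_of_rad {F : Finset Edg} {m : ℕ} {u x : Vtx} (hu : 2 * m ≤ nv u)
    (hru : Reach (↑F : Set Edg) (0, 0) u) (hx : Reach (↑F : Set Edg) (0, 0) x) : LA x m F := by
  have h := nv_split u x
  rcases le_or_gt m (nv x) with h1 | h1
  · exact LA_of_reach (u := (0, 0)) (by rw [nv_zero_sub]; exact h1) hx.symm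
  · exact LA_of_reach (u := u) (by omega) (hx.symm.trans hru)

/-- clusters of radius between `2 m` and `r` -/
theorem ring_bound {A : ℝ} (hA : 1 ≤ A) : ∃ c C : ℝ, 0 < c ∧ 0 < C ∧
    ∀ (p : ℝ) (m r N n K : ℕ), 0 ≤ p → p ≤ 1 → 1 ≤ m → ArmUp p A m →
      (2 * r + 1) ^ 2 ≤ N * m ^ 2 →
      Pr (fun _ => p) (boxE K) (fun F => n ≤ (cF K F).card ∧
        (∃ u, 2 * m ≤ nv u ∧ Reach (↑F : Set Edg) (0, 0) u) ∧
        ∀ u, Reach (↑F : Set Edg) (0, 0) u → nv u ≤ r) ≤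
      C * (m : ℝ) ^ (-(5/48) : ℝ) * Real.exp (C * N - c * (n / (m : ℝ) ^ (91/48 : ℝ))) := by
  obtain ⟨c, C, hc, hC, h⟩ := tail A hA
  refine ⟨c, C, hc, hC, ?_⟩
  intro p m r N n K h0 h1 hm hUp hN
  refine le_trans (Pr_mono (okq h0 h1) ?_)
    (h p m N n (bx r) (boxE K) h0 h1 hm hUp (by rw [card_bx2]; exact hN))
  rintro F _ ⟨k1, ⟨u, hu, hru⟩, k3⟩
  classical
  refine ⟨LA_of_rad hu hru (Reach.refl _ _), k1.trans (Finset.card_le_card ?_)⟩
  intro x hx
  rw [mem_cF] at hx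
  unfold Ys
  rw [Finset.mem_filter, mem_bx2]
  exact ⟨k3 x hx.2, LA_of_rad hu hru hx.2⟩

/-- union bound -/
theorem pr_exists {p : ℝ} (ok : Ok (fun _ : Edg => p)) (S : Finset Edg) {ι : Type*} (T : Finset ι)
    (A : ι → Finset Edg → Prop) :
    Pr (fun _ => p) S (fun F => ∃ i ∈ T, A i F) ≤ ∑ i ∈ T, Pr (fun _ => p) S (A i) := by
  unfold Pr
  rw [← Ex_sum]
  apply Ex_mono ok
  intro F _
  by_cases h : ∃ i ∈ T, A i F
  · rw [ind_of h]
    obtain ⟨i, hi, hA⟩ := h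
    have := Finset.single_le_sum (f := fun i => ind (A i F)) (fun i _ => ind_nonneg _) hi
    rw [← ind_of hA]
    exact this
  · rw [ind_not_of h]
    exact Finset.sum_nonneg fun i _ => ind_nonneg _

theorem ArmUp.anti {p A : ℝ} {m m' : ℕ} (h : ArmUp p A m) (hm : m' ≤ m) : ArmUp p A m' :=
  fun d h1 h2 => h d h1 (h2.trans hm)

/-- one term of the dyadic sum -/
theorem term_bound {c x M n : ℝ} (hc : 0 < c) (hx : 1 ≤ x) (hxM : x ≤ M)
    (hn : M ^ (91/48 : ℝ) ≤ n) :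
    x ^ (-(5/48) : ℝ) * Real.exp (-(c * (n / x ^ (91/48 : ℝ)))) ≤
      (2 / c) * (M ^ (-(29/48) : ℝ) * Real.exp (-(c / 2 * (n / M ^ (91/48 : ℝ))))) *
        x ^ (1/2 : ℝ) := by
  have hx0 : 0 < x := by linarith
  have hM0 : 0 < M := by linarith
  have hMV : 0 < M ^ (91/48 : ℝ) := by positivity
  have hxV : 0 < x ^ (91/48 : ℝ) := by positivity
  obtain ⟨y, hy⟩ : ∃ y : ℝ, y = n / M ^ (91/48 : ℝ) := ⟨_, rfl⟩
  have hy1 : 1 ≤ y := by rw [hy, le_div_iff₀ hMV, one_mul]; exact hn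
  obtain ⟨z, hz⟩ : ∃ z : ℝ, z = M / x := ⟨_, rfl⟩
  have hz1 : 1 ≤ z := by rw [hz, le_div_iff₀ hx0, one_mul]; exact hxM
  have h1 : y * z ≤ n / x ^ (91/48 : ℝ) := by
    have e : n / x ^ (91/48 : ℝ) = y * z ^ (91/48 : ℝ) := by
      rw [hy, hz, Real.div_rpow hM0.le hx0.le]
      field_simp
    rw [e]
    apply mul_le_mul_of_nonneg_left _ (by linarith)
    calc z = z ^ (1:ℝ) := (Real.rpow_one z).symm
      _ ≤ z ^ (91/48 : ℝ) := Real.rpow_le_rpow_of_exponent_le hz1 (by norm_num)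
  have h2 : (y + z) / 2 ≤ y * z := by nlinarith
  have h3 : Real.exp (-(c * (n / x ^ (91/48 : ℝ)))) ≤
      Real.exp (-(c / 2 * y)) * Real.exp (-(c / 2 * z)) := by
    rw [← Real.exp_add]
    apply Real.exp_le_exp.mpr
    have := mul_le_mul_of_nonneg_left (h2.trans h1) hc.le
    linarith
  have h4 : Real.exp (-(c / 2 * z)) ≤ (2 / c) * (x / M) := by
    have h5 : c / 2 * z ≤ Real.exp (c / 2 * z) := by
      have := Real.add_one_le_exp (c / 2 * z)
      linarith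
    have h6 : Real.exp (-(c / 2 * z)) * Real.exp (c / 2 * z) = 1 := by
      rw [← Real.exp_add]; simp
    have h7 : 0 < Real.exp (-(c / 2 * z)) := Real.exp_pos _
    have h8 : Real.exp (-(c / 2 * z)) * (c / 2 * z) ≤ 1 := by
      rw [← h6]; exact mul_le_mul_of_nonneg_left h5 h7.le
    have e : (2 / c) * (x / M) = 1 / (c / 2 * z) := by
      rw [hz]; field_simp
    rw [e, le_div_iff₀ (by positivity)]
    exact h8
  have h9 : x ^ (-(5/48) : ℝ) * (x / M) ≤ M ^ (-(29/48) : ℝ) * x ^ (1/2 : ℝ) := by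
    have e1 : x ^ (-(5/48) : ℝ) * (x / M) = x ^ (19/48 : ℝ) * x ^ (1/2 : ℝ) / M := by
      rw [← Real.rpow_add hx0, mul_div_assoc']
      congr 1
      nth_rewrite 2 [← Real.rpow_one x]
      rw [← Real.rpow_add hx0]
      norm_num
    have e2 : M ^ (-(29/48) : ℝ) * x ^ (1/2 : ℝ) = M ^ (19/48 : ℝ) * x ^ (1/2 : ℝ) / M := by
      have : M ^ (-(29/48) : ℝ) = M ^ (19/48 : ℝ) / M := by
        nth_rewrite 3 [← Real.rpow_one M]
        rw [← Real.rpow_sub hM0]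
        norm_num
      rw [this]; ring
    rw [e1, e2]
    apply div_le_div_of_nonneg_right _ hM0.le
    apply mul_le_mul_of_nonneg_right _ (by positivity)
    exact Real.rpow_le_rpow hx0.le hxM (by norm_num)
  have hxp : 0 < x ^ (-(5/48) : ℝ) := by positivity
  rw [← hy]
  calc x ^ (-(5/48) : ℝ) * Real.exp (-(c * (n / x ^ (91/48 : ℝ))))
      ≤ x ^ (-(5/48) : ℝ) * (Real.exp (-(c / 2 * y)) * Real.exp (-(c / 2 * z))) :=
        mul_le_mul_of_nonneg_left h3 hxp.le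
    _ ≤ x ^ (-(5/48) : ℝ) * (Real.exp (-(c / 2 * y)) * ((2 / c) * (x / M))) := by
        apply mul_le_mul_of_nonneg_left _ hxp.le
        exact mul_le_mul_of_nonneg_left h4 (Real.exp_pos _).le
    _ = (2 / c) * Real.exp (-(c / 2 * y)) * (x ^ (-(5/48) : ℝ) * (x / M)) := by ring
    _ ≤ (2 / c) * Real.exp (-(c / 2 * y)) * (M ^ (-(29/48) : ℝ) * x ^ (1/2 : ℝ)) :=
        mul_le_mul_of_nonneg_left h9 (by positivity)
    _ = _ := by ring

theorem sqrt_sum (I : ℕ) : ∑ i ∈ range I, (((2:ℝ) ^ i) ^ (1/2 : ℝ)) ≤ 3 * ((2:ℝ) ^ I) ^ (1/2 : ℝ) := by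
  induction I with
  | zero => simp
  | succ I ih =>
    rw [Finset.sum_range_succ]
    have e : ((2:ℝ) ^ (I + 1)) ^ (1/2 : ℝ) = ((2:ℝ) ^ I) ^ (1/2 : ℝ) * (2:ℝ) ^ (1/2 : ℝ) := by
      rw [pow_succ, Real.mul_rpow (by positivity) (by norm_num)]
    rw [e]
    have h1 : (4/3 : ℝ) ≤ (2:ℝ) ^ (1/2 : ℝ) := by
      rw [← Real.sqrt_eq_rpow]
      apply Real.le_sqrt_of_sq_le
      norm_num
    have h2 : 0 < ((2:ℝ) ^ I) ^ (1/2 : ℝ) := by positivity
    nlinarith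

/-- clusters contained in the box of radius `2 M`, `M = 2 ^ I` -/
theorem dyadic {A : ℝ} (hA : 1 ≤ A) : ∃ c C : ℝ, 0 < c ∧ 0 < C ∧
    ∀ (p : ℝ) (I n K : ℕ), 0 ≤ p → p ≤ 1 → ArmUp p A (2 ^ I) → 10 ≤ n →
      ((2:ℝ) ^ I) ^ (91/48 : ℝ) ≤ n →
      Pr (fun _ => p) (boxE K) (fun F => n ≤ (cF K F).card ∧
        ∀ u, Reach (↑F : Set Edg) (0, 0) u → nv u < 2 ^ (I + 1)) ≤
      C * ((2:ℝ) ^ I) ^ (-(5/48) : ℝ) * Real.exp (-(c * (n / ((2:ℝ) ^ I) ^ (91/48 : ℝ)))) := by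
  obtain ⟨c, C, hc, hC, h⟩ := ring_bound hA
  refine ⟨c / 2, C * Real.exp (C * 81) * (2 / c) * 3, by positivity, by positivity, ?_⟩
  intro p I n K h0 h1 hUp hn hnM
  have ok := okq h0 h1
  have step : Pr (fun _ => p) (boxE K) (fun F => n ≤ (cF K F).card ∧
        ∀ u, Reach (↑F : Set Edg) (0, 0) u → nv u < 2 ^ (I + 1)) ≤
      Pr (fun _ => p) (boxE K) (fun F => ∃ i ∈ range I, n ≤ (cF K F).card ∧
        (∃ u, 2 * 2 ^ i ≤ nv u ∧ Reach (↑F : Set Edg) (0, 0) u) ∧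
        ∀ u, Reach (↑F : Set Edg) (0, 0) u → nv u ≤ 4 * 2 ^ i) := by
    apply Pr_mono ok
    rintro F _ ⟨k1, k2⟩
    -- the vertex of largest norm
    have hne : (cF K F).Nonempty := by
      rw [← Finset.card_pos]; omega
    obtain ⟨w, hw, hmax⟩ := Finset.exists_max_image (cF K F) nv hne
    have hw' := mem_cF.1 hw
    have hw2 : 2 ≤ nv w := by
      by_contra hlt
      have hsub : cF K F ⊆ bx 1 := by
        intro x hx
        rw [mem_bx2]
        have := hmax x hx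
        omega
      have h9 := Finset.card_le_card hsub
      rw [card_bx2] at h9
      omega
    -- all reached vertices are in the box when the box is large; otherwise use a first one
    by_cases hall : ∀ u, Reach (↑F : Set Edg) (0, 0) u → nv u ≤ nv w
    · obtain ⟨j, hj⟩ : ∃ j : ℕ, j = Nat.log 2 (nv w) := ⟨_, rfl⟩
      have hj1 : 2 ^ j ≤ nv w := by rw [hj]; exact Nat.pow_log_le_self 2 (by omega)
      have hj2 : nv w < 2 ^ (j + 1) := by
        rw [hj]; exact Nat.lt_pow_succ_log_self (by norm_num) _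
      have hj3 : 1 ≤ j := by rw [hj]; exact Nat.log_pos (by norm_num) hw2
      have hjI : j < I + 1 := by
        by_contra hc2
        have h3 := k2 w hw'.2
        have h4 : 2 ^ (I + 1) ≤ 2 ^ j := Nat.pow_le_pow_right (by norm_num) (by omega)
        omega
      obtain ⟨i, rfl⟩ : ∃ i, j = i + 1 := ⟨j - 1, by omega⟩
      refine ⟨i, Finset.mem_range.2 (by omega), k1, ⟨w, ?_, hw'.2⟩, fun u hu => ?_⟩
      · calc 2 * 2 ^ i = 2 ^ (i + 1) := by rw [pow_succ]; ring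
          _ ≤ _ := hj1
      · have h5 := hall u hu
        have h6 : 2 ^ (i + 1 + 1) = 4 * 2 ^ i := by rw [pow_succ, pow_succ]; ring
        omega
    · push Not at hall
      obtain ⟨u0, hu0, hu0n⟩ := hall
      -- the reached vertices form a bounded set, take one of maximal norm
      obtain ⟨v, hv, hvmax⟩ : ∃ v, Reach (↑F : Set Edg) (0, 0) v ∧
          ∀ u, Reach (↑F : Set Edg) (0, 0) u → nv u ≤ nv v := by
        classical
        have hfin : ∀ u, Reach (↑F : Set Edg) (0, 0) u → u ∈ bx (2 ^ (I + 1)) := by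
          intro u hu
          rw [mem_bx2]
          exact (k2 u hu).le
        obtain ⟨v, hv, hvm⟩ := Finset.exists_max_image
          ((bx (2 ^ (I + 1))).filter (fun u => Reach (↑F : Set Edg) (0, 0) u)) nv
          ⟨u0, Finset.mem_filter.2 ⟨hfin u0 hu0, hu0⟩⟩
        exact ⟨v, (Finset.mem_filter.1 hv).2, fun u hu =>
          hvm u (Finset.mem_filter.2 ⟨hfin u hu, hu⟩)⟩
      have hv2 : 2 ≤ nv v := hw2.trans (hvmax w hw'.2)
      obtain ⟨j, hj⟩ : ∃ j : ℕ, j = Nat.log 2 (nv v) := ⟨_, rfl⟩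
      have hj1 : 2 ^ j ≤ nv v := by rw [hj]; exact Nat.pow_log_le_self 2 (by omega)
      have hj2 : nv v < 2 ^ (j + 1) := by
        rw [hj]; exact Nat.lt_pow_succ_log_self (by norm_num) _
      have hj3 : 1 ≤ j := by rw [hj]; exact Nat.log_pos (by norm_num) hv2
      have hjI : j < I + 1 := by
        by_contra hc2
        have h3 := k2 v hv
        have h4 : 2 ^ (I + 1) ≤ 2 ^ j := Nat.pow_le_pow_right (by norm_num) (by omega)
        omega
      obtain ⟨i, rfl⟩ : ∃ i, j = i + 1 := ⟨j - 1, by omega⟩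
      refine ⟨i, Finset.mem_range.2 (by omega), k1, ⟨v, ?_, hv⟩, fun u hu => ?_⟩
      · calc 2 * 2 ^ i = 2 ^ (i + 1) := by rw [pow_succ]; ring
          _ ≤ _ := hj1
      · have h5 := hvmax u hu
        have h6 : 2 ^ (i + 1 + 1) = 4 * 2 ^ i := by rw [pow_succ, pow_succ]; ring
        omega
  refine step.trans ((pr_exists ok (boxE K) (range I) _).trans ?_)
  obtain ⟨M, hM⟩ : ∃ M : ℝ, M = (2:ℝ) ^ I := ⟨_, rfl⟩
  have hM1 : 1 ≤ M := by rw [hM]; exact one_le_pow₀ (by norm_num)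
  have hM0 : 0 < M := by linarith
  rw [← hM] at hnM ⊢
  have hterm : ∀ i ∈ range I, Pr (fun _ => p) (boxE K) (fun F => n ≤ (cF K F).card ∧
        (∃ u, 2 * 2 ^ i ≤ nv u ∧ Reach (↑F : Set Edg) (0, 0) u) ∧
        ∀ u, Reach (↑F : Set Edg) (0, 0) u → nv u ≤ 4 * 2 ^ i) ≤
      (C * Real.exp (C * 81) * (2 / c) * (M ^ (-(29/48) : ℝ) *
        Real.exp (-(c / 2 * (n / M ^ (91/48 : ℝ)))))) * ((2:ℝ) ^ i) ^ (1/2 : ℝ) := by
    intro i hi
    have hiI : i < I := Finset.mem_range.1 hi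
    have h2i : 2 ^ i ≤ 2 ^ I := Nat.pow_le_pow_right (by norm_num) hiI.le
    have h3 := h p (2 ^ i) (4 * 2 ^ i) 81 n K h0 h1 Nat.one_le_two_pow (hUp.anti h2i) (by
      have : 1 ≤ 2 ^ i := Nat.one_le_two_pow
      nlinarith)
    refine h3.trans ?_
    push_cast
    obtain ⟨x, hx⟩ : ∃ x : ℝ, x = (2:ℝ) ^ i := ⟨_, rfl⟩
    have hx1 : 1 ≤ x := by rw [hx]; exact one_le_pow₀ (by norm_num)
    have hxM : x ≤ M := by
      rw [hx, hM]; exact pow_le_pow_right₀ (by norm_num) hiI.le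
    rw [← hx]
    have h4 := term_bound hc hx1 hxM hnM
    have e : C * x ^ (-(5/48) : ℝ) * Real.exp (C * 81 - c * (n / x ^ (91/48 : ℝ))) =
        C * Real.exp (C * 81) * (x ^ (-(5/48) : ℝ) * Real.exp (-(c * (n / x ^ (91/48 : ℝ))))) := by
      rw [sub_eq_add_neg, Real.exp_add]; ring
    rw [e]
    calc C * Real.exp (C * 81) * (x ^ (-(5/48) : ℝ) * Real.exp (-(c * (n / x ^ (91/48 : ℝ)))))
        ≤ C * Real.exp (C * 81) * ((2 / c) * (M ^ (-(29/48) : ℝ) *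
          Real.exp (-(c / 2 * (n / M ^ (91/48 : ℝ))))) * x ^ (1/2 : ℝ)) :=
          mul_le_mul_of_nonneg_left h4 (by positivity)
      _ = _ := by ring
  refine (Finset.sum_le_sum hterm).trans ?_
  rw [← Finset.mul_sum]
  have h5 := sqrt_sum I
  rw [← hM] at h5
  have e2 : M ^ (-(29/48) : ℝ) * M ^ (1/2 : ℝ) = M ^ (-(5/48) : ℝ) := by
    rw [← Real.rpow_add hM0]; norm_num
  calc (C * Real.exp (C * 81) * (2 / c) * (M ^ (-(29/48) : ℝ) *
        Real.exp (-(c / 2 * (n / M ^ (91/48 : ℝ)))))) * ∑ i ∈ range I, ((2:ℝ) ^ i) ^ (1/2 : ℝ)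
      ≤ (C * Real.exp (C * 81) * (2 / c) * (M ^ (-(29/48) : ℝ) *
        Real.exp (-(c / 2 * (n / M ^ (91/48 : ℝ)))))) * (3 * M ^ (1/2 : ℝ)) :=
        mul_le_mul_of_nonneg_left h5 (by positivity)
    _ = C * Real.exp (C * 81) * (2 / c) * 3 * (M ^ (-(29/48) : ℝ) * M ^ (1/2 : ℝ)) *
        Real.exp (-(c / 2 * (n / M ^ (91/48 : ℝ)))) := by ring
    _ = _ := by rw [e2]

end CS871
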