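import Pool.Agent.Run7.h871.CS.Goal

/-!
The upper bounds of the cluster size law.
-/

set_option autoImplicit false
set_option maxHeartbeats 1000000

namespace CS871

open Finset H974 H31K Pool.Agent.H160R2.CV Pool.Agent.H160R2.CV.Quad MeasureTheory T213
  Pool.Agent.W424.NC

theorem conv {M n : ℝ} (hM : 0 < M) (hn : 0 < n) :
    M ^ (-(5/48) : ℝ) = n ^ (-(5/91) : ℝ) * (n / M ^ (91/48 : ℝ)) ^ (5/91 : ℝ) := by
  have h1 : (M ^ (91/48 : ℝ)) ^ (5/91 : ℝ) = M ^ (5/48 : ℝ) := by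
    rw [← Real.rpow_mul hM.le]; norm_num
  rw [Real.div_rpow hn.le (by positivity), h1, Real.rpow_neg hn.le, Real.rpow_neg hM.le]
  have h2 : 0 < n ^ (5/91 : ℝ) := by positivity
  have h3 : 0 < M ^ (5/48 : ℝ) := by positivity
  field_simp

theorem absorb {c s : ℝ} (hc : 0 < c) (hs : 0 ≤ s) :
    s * Real.exp (-(c * s)) ≤ (2 / c) * Real.exp (-(c / 2 * s)) := by
  have h1 : c / 2 * s ≤ Real.exp (c / 2 * s) := by
    have := Real.add_one_le_exp (c / 2 * s)
    linarith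
  have h2 : Real.exp (-(c * s)) = Real.exp (-(c / 2 * s)) * Real.exp (-(c / 2 * s)) := by
    rw [← Real.exp_add]; congr 1; ring
  have h3 : Real.exp (c / 2 * s) * Real.exp (-(c / 2 * s)) = 1 := by
    rw [← Real.exp_add]; simp
  have h4 : 0 < Real.exp (-(c / 2 * s)) := Real.exp_pos _
  have h5 : c / 2 * s * Real.exp (-(c / 2 * s)) ≤ 1 := by
    rw [← h3]; exact mul_le_mul_of_nonneg_right h1 h4.le
  rw [h2]
  calc s * (Real.exp (-(c / 2 * s)) * Real.exp (-(c / 2 * s)))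
      = (2 / c) * (c / 2 * s * Real.exp (-(c / 2 * s))) * Real.exp (-(c / 2 * s)) := by
        field_simp
    _ ≤ (2 / c) * 1 * Real.exp (-(c / 2 * s)) := by
        apply mul_le_mul_of_nonneg_right _ h4.le
        exact mul_le_mul_of_nonneg_left h5 (by positivity)
    _ = _ := by ring

theorem rpow_43 {s : ℝ} (hs : 0 ≤ s) : (s ^ (4/3 : ℝ)) ^ (91/48 : ℝ) = s ^ (91/36 : ℝ) := by
  rw [← Real.rpow_mul hs]; norm_num

/-- all reached vertices of a finite box are inside when there is no arm -/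
theorem split_box {p : ℝ} (ok : Ok (fun _ : Edg => p)) (n K R : ℕ) :
    Pr (fun _ => p) (boxE K) (fun F => n ≤ (cF K F).card ∧ ¬ Arm K F) ≤
      Pr (fun _ => p) (boxE K) (fun F => n ≤ (cF K F).card ∧
        ∀ u, Reach (↑F : Set Edg) (0, 0) u → nv u < R) +
      Pr (fun _ => p) (boxE K) (fun F => n ≤ (cF K F).card ∧
        (∃ u, R ≤ nv u ∧ Reach (↑F : Set Edg) (0, 0) u) ∧ ¬ Arm K F) := by
  refine le_trans (Pr_mono ok ?_) (Pr_or_le ok _ _ _)
  rintro F _ ⟨k1, k2⟩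
  by_cases h : ∀ u, Reach (↑F : Set Edg) (0, 0) u → nv u < R
  · exact Or.inl ⟨k1, h⟩
  · push Not at h
    obtain ⟨u, hu, hru⟩ := h
    exact Or.inr ⟨k1, ⟨u, hru, hu⟩, k2⟩

theorem upsup : S_UPSUP := by
  obtain ⟨A, hA, hUp⟩ := armUp_sup
  obtain ⟨c1, C1, hc1, hC1, hrad⟩ := radf_upper_sup
  obtain ⟨cd, Cd, hcd, hCd, hdy⟩ := dyadic hA
  obtain ⟨cr, Cr, hcr, hCr, hri⟩ := ring_bound hA
  obtain ⟨a, ha⟩ : ∃ a : ℝ, a = min 1 (cr / (36 * Cr)) := ⟨_, rfl⟩
  have ha0 : 0 < a := by rw [ha]; positivity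
  have ha1 : a ≤ 1 := by rw [ha]; exact min_le_left _ _
  have hacr : 36 * Cr * a ^ 2 ≤ cr := by
    have h2 : a ≤ cr / (36 * Cr) := by rw [ha]; exact min_le_right _ _
    have h3 : a ^ 2 ≤ a := by nlinarith
    have h4 := h3.trans h2
    rw [le_div_iff₀ (by positivity)] at h4
    linarith
  obtain ⟨Y, hY⟩ : ∃ Y : ℝ, Y = 10 + 1 / a ^ 2 := ⟨_, rfl⟩
  have hY1 : 1 ≤ Y := by rw [hY]; have : 0 < 1 / a ^ 2 := by positivity
                         linarith
  obtain ⟨Cs, hCs, hsm⟩ := small_sizes hA hY1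
  obtain ⟨c', hc'⟩ : ∃ c' : ℝ, c' = min (c1 * a / 4) (min cd (cr / 2)) := ⟨_, rfl⟩
  have hc'0 : 0 < c' := by rw [hc']; positivity
  have hc'1 : c' ≤ c1 * a / 4 := by rw [hc']; exact min_le_left _ _
  have hc'2 : c' ≤ cd := by rw [hc']; exact (min_le_right _ _).trans (min_le_left _ _)
  have hc'3 : c' ≤ cr / 2 := by rw [hc']; exact (min_le_right _ _).trans (min_le_right _ _)
  refine ⟨c' / 2, Cs * Real.exp (c' / 2 * Real.sqrt Y) + (2 * C1 + Cd + Cr) * (2 / c'),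
    by positivity, by positivity, ?_⟩
  intro p hp n hn
  have h0 := p.2.1
  have h1 := p.2.2
  have ok := okq h0 h1
  have hn0 : (0:ℝ) < n := by exact_mod_cast hn
  have hnp : 0 < (n:ℝ) ^ (-(5/91) : ℝ) := by positivity
  obtain ⟨t, ht⟩ : ∃ t : ℝ, t = ((p:ℝ) - 1/2) ^ (4/3 : ℝ) := ⟨_, rfl⟩
  have hs0 : 0 < (p:ℝ) - 1/2 := by linarith
  have ht0 : 0 < t := by rw [ht]; positivity
  have ht1 : t ≤ 1 := by
    rw [ht]; exact Real.rpow_le_one hs0.le (by linarith) (by norm_num)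
  have e36 : ((p:ℝ) - 1/2) ^ (91/36 : ℝ) = t ^ (91/48 : ℝ) := by rw [ht, rpow_43 hs0.le]
  rw [e36]
  obtain ⟨I, hI1, hI2⟩ := pow_lt_of_log (x := 1 / t) (by rw [le_div_iff₀ ht0, one_mul]; exact ht1)
  obtain ⟨M, hM⟩ : ∃ M : ℝ, M = (2:ℝ) ^ I := ⟨_, rfl⟩
  have hM1 : 1 ≤ M := by rw [hM]; exact one_le_pow₀ (by norm_num)
  have hM0 : 0 < M := by linarith
  have hMt : M * t ≤ 1 := by
    rw [← hM] at hI1
    calc M * t ≤ 1 / t * t := mul_le_mul_of_nonneg_right hI1 ht0.le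
      _ = 1 := by field_simp
  have hMt2 : 1/2 ≤ M * t := by
    rw [pow_succ, ← hM] at hI2
    have : 1 / t * t ≤ M * 2 * t := mul_le_mul_of_nonneg_right hI2.le ht0.le
    have e : 1 / t * t = 1 := by field_simp
    linarith
  have hUp' : ArmUp p A (2 ^ I) := by
    apply hUp p (2 ^ I) hp.le h1
    rw [← ht]
    push_cast
    rw [← hM]
    exact hMt
  have hMV : 0 < M ^ (91/48 : ℝ) := by positivity
  have hMV1 : 1 ≤ M ^ (91/48 : ℝ) := Real.one_le_rpow hM1 (by norm_num)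
  obtain ⟨y, hy⟩ : ∃ y : ℝ, y = n / M ^ (91/48 : ℝ) := ⟨_, rfl⟩
  have hy0 : 0 < y := by rw [hy]; positivity
  obtain ⟨s, hs⟩ : ∃ s : ℝ, s = Real.sqrt y := ⟨_, rfl⟩
  have hsn : 0 ≤ s := by rw [hs]; exact Real.sqrt_nonneg _
  have hZ : (n:ℝ) * t ^ (91/48 : ℝ) ≤ y := by
    have e : (n:ℝ) * t ^ (91/48 : ℝ) = y * (M * t) ^ (91/48 : ℝ) := by
      rw [hy, Real.mul_rpow hM0.le ht0.le]; field_simp
    rw [e]
    have : (M * t) ^ (91/48 : ℝ) ≤ 1 := Real.rpow_le_one (by positivity) hMt (by norm_num)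
    nlinarith
  have hE : Real.sqrt (n * t ^ (91/48 : ℝ)) ≤ s := by rw [hs]; exact Real.sqrt_le_sqrt hZ
  have hexpE : Real.exp (-(c' / 2 * s)) ≤
      Real.exp (-(c' / 2 * Real.sqrt (n * t ^ (91/48 : ℝ)))) := by
    apply Real.exp_le_exp.mpr
    have := mul_le_mul_of_nonneg_left hE (show 0 ≤ c' / 2 by positivity)
    linarith
  have hfin : ∀ z : ℝ, z ≤ (Cs * Real.exp (c' / 2 * Real.sqrt Y) + (2 * C1 + Cd + Cr) * (2 / c')) *
      (n:ℝ) ^ (-(5/91) : ℝ) * Real.exp (-(c' / 2 * s)) →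
      z ≤ (Cs * Real.exp (c' / 2 * Real.sqrt Y) + (2 * C1 + Cd + Cr) * (2 / c')) *
      (n:ℝ) ^ (-(5/91) : ℝ) * Real.exp (-(c' / 2 * Real.sqrt (n * t ^ (91/48 : ℝ)))) :=
    fun z hz => hz.trans (mul_le_mul_of_nonneg_left hexpE (by positivity))
  apply hfin
  have eadd : (Cs * Real.exp (c' / 2 * Real.sqrt Y) + (2 * C1 + Cd + Cr) * (2 / c')) *
      (n:ℝ) ^ (-(5/91) : ℝ) * Real.exp (-(c' / 2 * s)) =
      (Cs * (n:ℝ) ^ (-(5/91) : ℝ)) *
        (Real.exp (c' / 2 * Real.sqrt Y) * Real.exp (-(c' / 2 * s))) +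
      (2 * C1 + Cd + Cr) * (2 / c') * (n:ℝ) ^ (-(5/91) : ℝ) * Real.exp (-(c' / 2 * s)) := by
    ring
  rcases le_or_gt (n:ℝ) (Y * M ^ (91/48 : ℝ)) with hle | hgt
  · have h2 := hsm p I n hUp' hn (by rw [← hM]; exact hle)
    have hyY : y ≤ Y := by rw [hy, div_le_iff₀ hMV]; exact hle
    have h3 : 1 ≤ Real.exp (c' / 2 * Real.sqrt Y) * Real.exp (-(c' / 2 * s)) := by
      rw [← Real.exp_add]
      apply Real.one_le_exp
      have h4 : s ≤ Real.sqrt Y := by rw [hs]; exact Real.sqrt_le_sqrt hyY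
      have := mul_le_mul_of_nonneg_left h4 (show 0 ≤ c' / 2 by positivity)
      linarith
    have h5 : 0 ≤ (2 * C1 + Cd + Cr) * (2 / c') * (n:ℝ) ^ (-(5/91) : ℝ) *
        Real.exp (-(c' / 2 * s)) := by positivity
    have h6 : Cs * (n:ℝ) ^ (-(5/91) : ℝ) * 1 ≤ (Cs * (n:ℝ) ^ (-(5/91) : ℝ)) *
        (Real.exp (c' / 2 * Real.sqrt Y) * Real.exp (-(c' / 2 * s))) :=
      mul_le_mul_of_nonneg_left h3 (by positivity)
    rw [eadd]
    linarith
  · have hyY : Y < y := by rw [hy, lt_div_iff₀ hMV]; exact hgt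
    have hy10 : 10 ≤ y := by
      have : 0 < 1 / a ^ 2 := by positivity
      linarith
    have hya : 1 ≤ a ^ 2 * y := by
      have h2 : 1 / a ^ 2 ≤ y := by linarith
      rw [div_le_iff₀ (by positivity)] at h2
      linarith
    have hss : s * s = y := by rw [hs]; exact Real.mul_self_sqrt hy0.le
    have has : 1 ≤ a * s := by
      have h2 : 1 ≤ (a * s) * (a * s) := by
        calc 1 ≤ a ^ 2 * y := hya
          _ = _ := by rw [← hss]; ring
      by_contra hc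
      push Not at hc
      have h3 : 0 ≤ a * s := by positivity
      have h4 : (a * s) * (a * s) < 1 := by
        calc (a * s) * (a * s) ≤ (a * s) * 1 := mul_le_mul_of_nonneg_left hc.le h3
          _ = a * s := mul_one _
          _ < 1 := hc
      linarith
    have hs1 : 1 ≤ s := by
      calc 1 ≤ a * s := has
        _ ≤ 1 * s := mul_le_mul_of_nonneg_right ha1 hsn
        _ = s := one_mul _
    have hn10 : 10 ≤ n := by
      have h2 : y ≤ n := by
        rw [hy]; exact div_le_self hn0.le hMV1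
      have h3 : (10:ℝ) ≤ n := hy10.trans h2
      exact_mod_cast h3
    obtain ⟨r, hr⟩ : ∃ r : ℕ, r = ⌊a * M * s⌋₊ := ⟨_, rfl⟩
    have haMs : 1 ≤ a * M * s := by
      calc (1:ℝ) = 1 * 1 := (mul_one _).symm
        _ ≤ (a * s) * M := mul_le_mul has hM1 zero_le_one (by positivity)
        _ = _ := by ring
    have hr1 : 1 ≤ r := by rw [hr]; exact Nat.le_floor (by exact_mod_cast haMs)
    have hra : (r:ℝ) ≤ a * M * s := by rw [hr]; exact Nat.floor_le (by linarith)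
    have har : a * M * s < r + 1 := by rw [hr]; exact Nat.lt_floor_add_one _
    have hr1' : (1:ℝ) ≤ r := by exact_mod_cast hr1
    have har2 : a * M * s / 2 ≤ r := by linarith
    obtain ⟨N, hN⟩ : ∃ N : ℕ, N = ⌈9 * (a ^ 2 * y)⌉₊ := ⟨_, rfl⟩
    have hN1 : 9 * (a ^ 2 * y) ≤ N := by rw [hN]; exact Nat.le_ceil _
    have hN2 : (N:ℝ) ≤ 9 * (a ^ 2 * y) + 1 := by
      rw [hN]; exact (Nat.ceil_lt_add_one (by positivity)).le
    have hNr : (2 * r + 1) ^ 2 ≤ N * (2 ^ I) ^ 2 := by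
      have h2 : ((2 * (r:ℝ) + 1)) ^ 2 ≤ N * M ^ 2 := by
        have h3 : (2 * (r:ℝ) + 1) ^ 2 ≤ (3 * r) ^ 2 := by
          apply pow_le_pow_left₀ (by positivity); linarith
        have h4 : (3 * (r:ℝ)) ^ 2 ≤ (3 * (a * M * s)) ^ 2 := by
          apply pow_le_pow_left₀ (by positivity); linarith
        have e : (3 * (a * M * s)) ^ 2 = 9 * (a ^ 2 * y) * M ^ 2 := by rw [← hss]; ring
        have h5 : 9 * (a ^ 2 * y) * M ^ 2 ≤ N * M ^ 2 :=
          mul_le_mul_of_nonneg_right hN1 (by positivity)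
        linarith
      rw [hM] at h2
      exact_mod_cast h2
    refine (sz_le_box p n r).trans ?_
    have hMp : 0 < M ^ (-(5/48) : ℝ) := by positivity
    have b1 : (bondLaw p).real {ω | ω ∈ ArmE r ∧ (cluster0 ω).Finite} ≤
        2 * C1 * M ^ (-(5/48) : ℝ) * Real.exp (-(c' * s)) := by
      refine (hrad p hp r hr1).trans ?_
      rw [← ht]
      have h2 : (r:ℝ) ^ (-(5/48) : ℝ) ≤ 2 * M ^ (-(5/48) : ℝ) := by
        have h3 : M / 2 ≤ r := by
          calc M / 2 = 1 * (M / 2) := (one_mul _).symm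
            _ ≤ (a * s) * (M / 2) := mul_le_mul_of_nonneg_right has (by positivity)
            _ = a * M * s / 2 := by ring
            _ ≤ r := har2
        calc (r:ℝ) ^ (-(5/48) : ℝ) ≤ (M / 2) ^ (-(5/48) : ℝ) :=
              Real.rpow_le_rpow_of_nonpos (by positivity) h3 (by norm_num)
          _ = (2:ℝ) ^ (5/48 : ℝ) * M ^ (-(5/48) : ℝ) := by
              rw [Real.div_rpow hM0.le (by norm_num), Real.rpow_neg (by norm_num : (0:ℝ) ≤ 2),
                div_inv_eq_mul, mul_comm]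
          _ ≤ _ := by
              apply mul_le_mul_of_nonneg_right _ hMp.le
              calc (2:ℝ) ^ (5/48 : ℝ) ≤ 2 ^ (1:ℝ) :=
                    Real.rpow_le_rpow_of_exponent_le (by norm_num) (by norm_num)
                _ = 2 := Real.rpow_one _
      have h4 : Real.exp (-(c1 * (r * t))) ≤ Real.exp (-(c' * s)) := by
        apply Real.exp_le_exp.mpr
        have h5 : a * s / 4 ≤ r * t := by
          calc a * s / 4 = (a * s / 2) * (1/2) := by ring
            _ ≤ (a * s / 2) * (M * t) := mul_le_mul_of_nonneg_left hMt2 (by positivity)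
            _ = (a * M * s / 2) * t := by ring
            _ ≤ r * t := mul_le_mul_of_nonneg_right har2 ht0.le
        have h6 : c' * s ≤ (c1 * a / 4) * s := mul_le_mul_of_nonneg_right hc'1 hsn
        have h7 : c1 * (a * s / 4) ≤ c1 * (r * t) := mul_le_mul_of_nonneg_left h5 hc1.le
        linarith
      calc C1 * (r:ℝ) ^ (-(5/48) : ℝ) * Real.exp (-(c1 * (r * t)))
          ≤ C1 * (2 * M ^ (-(5/48) : ℝ)) * Real.exp (-(c' * s)) :=
            mul_le_mul (mul_le_mul_of_nonneg_left h2 hC1.le) h4 (Real.exp_pos _).le (by positivity)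
        _ = _ := by ring
    have hys : s ≤ y := by
      rw [← hss]
      calc s = s * 1 := (mul_one _).symm
        _ ≤ s * s := mul_le_mul_of_nonneg_left hs1 hsn
    have b2 := split_box ok n r (2 ^ (I + 1))
    have b3 := hdy p I n r h0 h1 hUp' hn10 (by
      rw [← hM]
      have h2 : 1 ≤ y := by linarith
      rw [hy, le_div_iff₀ hMV] at h2
      linarith)
    have b3' : Pr (fun _ => (p:ℝ)) (boxE r) (fun F => n ≤ (cF r F).card ∧
        ∀ u, Reach (↑F : Set Edg) (0, 0) u → nv u < 2 ^ (I + 1)) ≤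
        Cd * M ^ (-(5/48) : ℝ) * Real.exp (-(c' * s)) := by
      refine b3.trans ?_
      rw [← hM, ← hy]
      apply mul_le_mul_of_nonneg_left _ (by positivity)
      apply Real.exp_le_exp.mpr
      have h2 : c' * s ≤ cd * y := mul_le_mul hc'2 hys hsn hcd.le
      linarith
    have b4 := hri p (2 ^ I) r N n r h0 h1 Nat.one_le_two_pow hUp' hNr
    have b4' : Pr (fun _ => (p:ℝ)) (boxE r) (fun F => n ≤ (cF r F).card ∧
        (∃ u, 2 ^ (I + 1) ≤ nv u ∧ Reach (↑F : Set Edg) (0, 0) u) ∧ ¬ Arm r F) ≤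
        Cr * M ^ (-(5/48) : ℝ) * Real.exp (-(c' * s)) := by
      refine le_trans (Pr_mono ok ?_) (b4.trans ?_)
      · rintro F _ ⟨k1, ⟨u, hu, hru⟩, k3⟩
        exact ⟨k1, ⟨u, by rw [pow_succ] at hu; omega, hru⟩,
          fun w hw => (nv_lt_of_not_arm k3 hw).le⟩
      · push_cast
        rw [← hM, ← hy]
        apply mul_le_mul_of_nonneg_left _ (by positivity)
        apply Real.exp_le_exp.mpr
        have h2 : Cr * N ≤ cr / 2 * y := by
          calc Cr * N ≤ Cr * (9 * (a ^ 2 * y) + 1) := mul_le_mul_of_nonneg_left hN2 hCr.le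
            _ ≤ Cr * (10 * (a ^ 2 * y)) := mul_le_mul_of_nonneg_left (by linarith) hCr.le
            _ = (10 * Cr * a ^ 2) * y := by ring
            _ ≤ (cr / 2) * y := by
                apply mul_le_mul_of_nonneg_right _ hy0.le
                have : 0 ≤ Cr * a ^ 2 := by positivity
                linarith
        have h3 : c' * s ≤ cr / 2 * y := mul_le_mul hc'3 hys hsn (by positivity)
        linarith
    have htot : (bondLaw p).real {ω | ω ∈ ArmE r ∧ (cluster0 ω).Finite} +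
      Pr (fun _ => (p:ℝ)) (boxE r) (fun F => n ≤ (cF r F).card ∧ ¬ Arm r F) ≤
        (2 * C1 + Cd + Cr) * (M ^ (-(5/48) : ℝ) * Real.exp (-(c' * s))) := by
      have e : (2 * C1 + Cd + Cr) * (M ^ (-(5/48) : ℝ) * Real.exp (-(c' * s))) =
        2 * C1 * M ^ (-(5/48) : ℝ) * Real.exp (-(c' * s)) +
        (Cd * M ^ (-(5/48) : ℝ) * Real.exp (-(c' * s)) +
        Cr * M ^ (-(5/48) : ℝ) * Real.exp (-(c' * s))) := by ring
      rw [e]
      linarith
    refine htot.trans ?_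
    have h7 : M ^ (-(5/48) : ℝ) * Real.exp (-(c' * s)) ≤
        (n:ℝ) ^ (-(5/91) : ℝ) * ((2 / c') * Real.exp (-(c' / 2 * s))) := by
      rw [conv hM0 hn0, ← hy, mul_assoc]
      apply mul_le_mul_of_nonneg_left _ hnp.le
      refine le_trans ?_ (absorb hc'0 hsn)
      apply mul_le_mul_of_nonneg_right _ (Real.exp_pos _).le
      have e : y ^ (5/91 : ℝ) = s ^ (10/91 : ℝ) := by
        rw [hs, Real.sqrt_eq_rpow, ← Real.rpow_mul hy0.le]; norm_num
      rw [e]
      calc s ^ (10/91 : ℝ) ≤ s ^ (1:ℝ) := Real.rpow_le_rpow_of_exponent_le hs1 (by norm_num)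
        _ = s := Real.rpow_one _
    have h8 : 0 ≤ (Cs * (n:ℝ) ^ (-(5/91) : ℝ)) *
        (Real.exp (c' / 2 * Real.sqrt Y) * Real.exp (-(c' / 2 * s))) := by positivity
    rw [eadd]
    calc (2 * C1 + Cd + Cr) * (M ^ (-(5/48) : ℝ) * Real.exp (-(c' * s)))
        ≤ (2 * C1 + Cd + Cr) * ((n:ℝ) ^ (-(5/91) : ℝ) * ((2 / c') * Real.exp (-(c' / 2 * s)))) :=
          mul_le_mul_of_nonneg_left h7 (by positivity)
      _ = (2 * C1 + Cd + Cr) * (2 / c') * (n:ℝ) ^ (-(5/91) : ℝ) * Real.exp (-(c' / 2 * s)) := by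
          ring
      _ ≤ _ := by linarith

end CS871
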