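import Pool.Agent.Run7.h871.CS.UpFin

/-!
The upper bound at and below the critical point.
-/

set_option autoImplicit false
set_option maxHeartbeats 1000000

namespace CS871

open Finset H974 H31K Pool.Agent.H160R2.CV Pool.Agent.H160R2.CV.Quad MeasureTheory T213
  Pool.Agent.W424.NC

theorem upsub (hAni : S_ANI) : S_UPSUB := by
  obtain ⟨A, hA, hUp⟩ := armUp_sub
  obtain ⟨ca, Ca, hca, hCa, R0, hani⟩ := hAni A hA
  obtain ⟨cd, Cd, hcd, hCd, hdy⟩ := dyadic hA
  obtain ⟨E, hE, hfar⟩ := farN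
  obtain ⟨Cs, hCs, hsm⟩ := small_sizes hA (Y := 10) (by norm_num)
  obtain ⟨R1, hR1⟩ : ∃ R1 : ℝ, R1 = R0 + 1 := ⟨_, rfl⟩
  have hR11 : 1 ≤ R1 := by rw [hR1]; have : (0:ℝ) ≤ R0 := by positivity
                           linarith
  obtain ⟨B, hB⟩ : ∃ B : ℝ, B = (R1 * E) ^ (91/48 : ℝ) := ⟨_, rfl⟩
  have hB0 : 0 < B := by rw [hB]; positivity
  obtain ⟨c', hc'⟩ : ∃ c' : ℝ, c' = min cd (ca / 4) := ⟨_, rfl⟩
  have hc'0 : 0 < c' := by rw [hc']; positivity
  have hc'1 : c' ≤ cd := by rw [hc']; exact min_le_left _ _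
  have hc'2 : c' ≤ ca / 4 := by rw [hc']; exact min_le_right _ _
  obtain ⟨c0, hc0⟩ : ∃ c0 : ℝ, c0 = c' / 2 / B := ⟨_, rfl⟩
  have hc00 : 0 < c0 := by rw [hc0]; positivity
  refine ⟨c0, Cs * Real.exp (c0 * (10 * B)) + (Cd + Ca * R1) * (2 / c'),
    hc00, by positivity, ?_⟩
  intro p hp n hn
  have h0 := p.2.1
  have h1 := p.2.2
  have ok := okq h0 h1
  have hn0 : (0:ℝ) < n := by exact_mod_cast hn
  have hn1 : (1:ℝ) ≤ n := by exact_mod_cast hn
  have hnp : 0 < (n:ℝ) ^ (-(5/91) : ℝ) := by positivity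
  have eadd : ∀ z : ℝ, (Cs * Real.exp (c0 * (10 * B)) + (Cd + Ca * R1) * (2 / c')) *
      (n:ℝ) ^ (-(5/91) : ℝ) * Real.exp (-(c0 * z)) =
      (Cs * (n:ℝ) ^ (-(5/91) : ℝ)) * (Real.exp (c0 * (10 * B)) * Real.exp (-(c0 * z))) +
      (Cd + Ca * R1) * (2 / c') * (n:ℝ) ^ (-(5/91) : ℝ) * Real.exp (-(c0 * z)) := by
    intro z; ring
  have hsmall : ∀ z : ℝ, z ≤ 10 * B → szFin p n ≤ Cs * (n:ℝ) ^ (-(5/91) : ℝ) →
      szFin p n ≤ (Cs * Real.exp (c0 * (10 * B)) + (Cd + Ca * R1) * (2 / c')) *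
      (n:ℝ) ^ (-(5/91) : ℝ) * Real.exp (-(c0 * z)) := by
    intro z hz h2
    have h3 : 1 ≤ Real.exp (c0 * (10 * B)) * Real.exp (-(c0 * z)) := by
      rw [← Real.exp_add]
      apply Real.one_le_exp
      have := mul_le_mul_of_nonneg_left hz hc00.le
      linarith
    have h5 : 0 ≤ (Cd + Ca * R1) * (2 / c') * (n:ℝ) ^ (-(5/91) : ℝ) * Real.exp (-(c0 * z)) := by
      positivity
    have h6 : Cs * (n:ℝ) ^ (-(5/91) : ℝ) * 1 ≤ (Cs * (n:ℝ) ^ (-(5/91) : ℝ)) *
        (Real.exp (c0 * (10 * B)) * Real.exp (-(c0 * z))) :=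
      mul_le_mul_of_nonneg_left h3 (by positivity)
    rw [eadd]
    linarith
  obtain ⟨t, ht⟩ : ∃ t : ℝ, t = (1/2 - (p:ℝ)) ^ (4/3 : ℝ) := ⟨_, rfl⟩
  have hs0 : 0 ≤ 1/2 - (p:ℝ) := by linarith
  have ht0 : 0 ≤ t := by rw [ht]; positivity
  have e36 : (1/2 - (p:ℝ)) ^ (91/36 : ℝ) = t ^ (91/48 : ℝ) := by rw [ht, rpow_43 hs0]
  rw [e36]
  rcases hp.eq_or_lt with heq | hlt
  · -- the critical point
    have ht00 : t = 0 := by
      rw [ht, heq, sub_self]; exact Real.zero_rpow (by norm_num)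
    apply hsmall
    · rw [ht00, Real.zero_rpow (by norm_num), mul_zero]; positivity
    · obtain ⟨I, -, hI⟩ := pow_lt_of_log hn1
      have h3 : (n:ℝ) ≤ ((2:ℝ) ^ (I + 1)) ^ (91/48 : ℝ) := by
        refine hI.le.trans ?_
        nth_rewrite 1 [← Real.rpow_one ((2:ℝ) ^ (I + 1))]
        exact Real.rpow_le_rpow_of_exponent_le (one_le_pow₀ (by norm_num)) (by norm_num)
      refine hsm p (I + 1) n (hUp p _ h0 hp) hn ?_
      have : 0 ≤ ((2:ℝ) ^ (I + 1)) ^ (91/48 : ℝ) := by positivity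
      linarith
  · obtain ⟨N, hN2, hNE, hN1, heps⟩ := hfar p h0 hlt
    rw [← ht] at hNE hN1
    have hN0 : (0:ℝ) < N := by
      have : 0 < N := by omega
      exact_mod_cast this
    have hN1' : (1:ℝ) ≤ N := by
      have : 1 ≤ N := by omega
      exact_mod_cast this
    obtain ⟨I, hI1, hI2⟩ := pow_lt_of_log (x := R1 * N) (by nlinarith)
    obtain ⟨M, hM⟩ : ∃ M : ℝ, M = (2:ℝ) ^ I := ⟨_, rfl⟩
    have hM1 : 1 ≤ M := by rw [hM]; exact one_le_pow₀ (by norm_num)
    have hM0 : 0 < M := by linarith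
    have hI2' : R1 * N < 2 * M := by rw [pow_succ, ← hM] at hI2; linarith
    rw [← hM] at hI1
    have hMV : 0 < M ^ (91/48 : ℝ) := by positivity
    have hMV1 : 1 ≤ M ^ (91/48 : ℝ) := Real.one_le_rpow hM1 (by norm_num)
    obtain ⟨y, hy⟩ : ∃ y : ℝ, y = n / M ^ (91/48 : ℝ) := ⟨_, rfl⟩
    have hy0 : 0 < y := by rw [hy]; positivity
    have hMt : M * t ≤ R1 * E := by
      calc M * t ≤ (R1 * N) * t := mul_le_mul_of_nonneg_right hI1 ht0
        _ = R1 * (N * t) := by ring
        _ ≤ R1 * E := mul_le_mul_of_nonneg_left hNE (by linarith)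
    have hZ : (n:ℝ) * t ^ (91/48 : ℝ) ≤ y * B := by
      have e : (n:ℝ) * t ^ (91/48 : ℝ) = y * (M * t) ^ (91/48 : ℝ) := by
        rw [hy, Real.mul_rpow hM0.le ht0]; field_simp
      rw [e, hB]
      apply mul_le_mul_of_nonneg_left _ hy0.le
      exact Real.rpow_le_rpow (by positivity) hMt (by norm_num)
    rcases le_or_gt (n:ℝ) (10 * M ^ (91/48 : ℝ)) with hle | hgt
    · apply hsmall
      · refine hZ.trans ?_
        apply mul_le_mul_of_nonneg_right _ hB0.le
        rw [hy, div_le_iff₀ hMV]; exact hle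
      · exact hsm p I n (hUp p _ h0 hp) hn (by rw [← hM]; exact hle)
    · have hy10 : 10 < y := by rw [hy, lt_div_iff₀ hMV]; exact hgt
      have hy1 : 1 ≤ y := by linarith
      have hn10 : 10 ≤ n := by
        have h2 : y ≤ n := by rw [hy]; exact div_le_self hn0.le hMV1
        have h3 : (10:ℝ) ≤ n := hy10.le.trans h2
        exact_mod_cast h3
      have hMp : 0 < M ^ (-(5/48) : ℝ) := by positivity
      have hmain : szFin p n ≤ (Cd + Ca * R1) * (M ^ (-(5/48) : ℝ) * Real.exp (-(c' * y))) := by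
        apply sz_le_all p n (by positivity)
        intro K
        refine (split_box ok n K (2 ^ (I + 1))).trans ?_
        have b3 := hdy p I n K h0 h1 (hUp p _ h0 hp) hn10 (by
          rw [← hM]
          have h2 := hy1
          rw [hy, le_div_iff₀ hMV] at h2
          linarith)
        have b3' : Pr (fun _ => (p:ℝ)) (boxE K) (fun F => n ≤ (cF K F).card ∧
            ∀ u, Reach (↑F : Set Edg) (0, 0) u → nv u < 2 ^ (I + 1)) ≤
            Cd * (M ^ (-(5/48) : ℝ) * Real.exp (-(c' * y))) := by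
          refine b3.trans ?_
          rw [← hM, ← hy, mul_assoc]
          apply mul_le_mul_of_nonneg_left _ hCd.le
          apply mul_le_mul_of_nonneg_left _ hMp.le
          apply Real.exp_le_exp.mpr
          have h2 : c' * y ≤ cd * y := mul_le_mul_of_nonneg_right hc'1 hy0.le
          linarith
        have b4 := hani p N K n h0 hlt hN2 heps (hUp p _ h0 hp)
        have b4' : Pr (fun _ => (p:ℝ)) (boxE K) (fun F => n ≤ (cF K F).card ∧
            (∃ u, 2 ^ (I + 1) ≤ nv u ∧ Reach (↑F : Set Edg) (0, 0) u) ∧ ¬ Arm K F) ≤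
            Ca * R1 * (M ^ (-(5/48) : ℝ) * Real.exp (-(c' * y))) := by
          refine le_trans (Pr_mono ok ?_) (b4.trans ?_)
          · rintro F _ ⟨k1, ⟨u, hu, hru⟩, k3⟩
            refine ⟨k1, ⟨u, ?_, hru⟩, k3⟩
            have h2 : (R0 * N : ℝ) ≤ 2 ^ (I + 1) := by
              rw [pow_succ, ← hM]
              have : (R0 * N : ℝ) ≤ R1 * N := by
                apply mul_le_mul_of_nonneg_right _ hN0.le
                rw [hR1]; linarith
              linarith
            have h3 : R0 * N ≤ 2 ^ (I + 1) := by exact_mod_cast h2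
            exact h3.trans hu
          · have h2 : (N:ℝ) ^ (-(5/48) : ℝ) ≤ R1 * M ^ (-(5/48) : ℝ) := by
              have h3 : M / R1 ≤ N := by
                rw [div_le_iff₀ (by linarith)]; linarith
              have hR10 : 0 < R1 := by linarith
              calc (N:ℝ) ^ (-(5/48) : ℝ) ≤ (M / R1) ^ (-(5/48) : ℝ) :=
                    Real.rpow_le_rpow_of_nonpos (by positivity) h3 (by norm_num)
                _ = R1 ^ (5/48 : ℝ) * M ^ (-(5/48) : ℝ) := by
                    rw [Real.div_rpow hM0.le hR10.le, Real.rpow_neg hR10.le,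
                      div_inv_eq_mul, mul_comm]
                _ ≤ _ := by
                    apply mul_le_mul_of_nonneg_right _ hMp.le
                    calc R1 ^ (5/48 : ℝ) ≤ R1 ^ (1:ℝ) :=
                          Real.rpow_le_rpow_of_exponent_le hR11 (by norm_num)
                      _ = R1 := Real.rpow_one _
            have h4 : y / 4 ≤ n / (N:ℝ) ^ (91/48 : ℝ) := by
              have h5 : (N:ℝ) ^ (91/48 : ℝ) ≤ 4 * M ^ (91/48 : ℝ) := by
                have h6 : (N:ℝ) ≤ 2 * M := by nlinarith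
                calc (N:ℝ) ^ (91/48 : ℝ) ≤ (2 * M) ^ (91/48 : ℝ) :=
                      Real.rpow_le_rpow hN0.le h6 (by norm_num)
                  _ = (2:ℝ) ^ (91/48 : ℝ) * M ^ (91/48 : ℝ) := by
                      rw [Real.mul_rpow (by norm_num) hM0.le]
                  _ ≤ _ := by
                      apply mul_le_mul_of_nonneg_right _ hMV.le
                      calc (2:ℝ) ^ (91/48 : ℝ) ≤ 2 ^ (2:ℝ) :=
                            Real.rpow_le_rpow_of_exponent_le (by norm_num) (by norm_num)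
                        _ = 4 := by norm_num
              rw [le_div_iff₀ (by positivity), hy]
              calc (n:ℝ) / M ^ (91/48 : ℝ) / 4 * (N:ℝ) ^ (91/48 : ℝ)
                  ≤ (n:ℝ) / M ^ (91/48 : ℝ) / 4 * (4 * M ^ (91/48 : ℝ)) :=
                    mul_le_mul_of_nonneg_left h5 (by positivity)
                _ = n := by field_simp
            have h5 : Real.exp (-(ca * (n / (N:ℝ) ^ (91/48 : ℝ)))) ≤ Real.exp (-(c' * y)) := by
              apply Real.exp_le_exp.mpr
              have h6 : ca * (y / 4) ≤ ca * (n / (N:ℝ) ^ (91/48 : ℝ)) :=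
                mul_le_mul_of_nonneg_left h4 hca.le
              have h7 : c' * y ≤ ca / 4 * y := mul_le_mul_of_nonneg_right hc'2 hy0.le
              linarith
            calc Ca * (N:ℝ) ^ (-(5/48) : ℝ) * Real.exp (-(ca * (n / (N:ℝ) ^ (91/48 : ℝ))))
                ≤ Ca * (R1 * M ^ (-(5/48) : ℝ)) * Real.exp (-(c' * y)) :=
                  mul_le_mul (mul_le_mul_of_nonneg_left h2 hCa.le) h5 (Real.exp_pos _).le
                    (by positivity)
              _ = _ := by ring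
        have e : (Cd + Ca * R1) * (M ^ (-(5/48) : ℝ) * Real.exp (-(c' * y))) =
            Cd * (M ^ (-(5/48) : ℝ) * Real.exp (-(c' * y))) +
            Ca * R1 * (M ^ (-(5/48) : ℝ) * Real.exp (-(c' * y))) := by ring
        rw [e]
        linarith
      refine hmain.trans ?_
      have h7 : M ^ (-(5/48) : ℝ) * Real.exp (-(c' * y)) ≤
          (n:ℝ) ^ (-(5/91) : ℝ) * ((2 / c') * Real.exp (-(c' / 2 * y))) := by
        rw [conv hM0 hn0, ← hy, mul_assoc]
        apply mul_le_mul_of_nonneg_left _ hnp.le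
        refine le_trans ?_ (absorb hc'0 hy0.le)
        apply mul_le_mul_of_nonneg_right _ (Real.exp_pos _).le
        calc y ^ (5/91 : ℝ) ≤ y ^ (1:ℝ) := Real.rpow_le_rpow_of_exponent_le hy1 (by norm_num)
          _ = y := Real.rpow_one _
      have h8 : Real.exp (-(c' / 2 * y)) ≤ Real.exp (-(c0 * (n * t ^ (91/48 : ℝ)))) := by
        apply Real.exp_le_exp.mpr
        have h9 := mul_le_mul_of_nonneg_left hZ hc00.le
        have e : c0 * (y * B) = c' / 2 * y := by rw [hc0]; field_simp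
        linarith
      have h10 : 0 ≤ (Cs * (n:ℝ) ^ (-(5/91) : ℝ)) *
          (Real.exp (c0 * (10 * B)) * Real.exp (-(c0 * (n * t ^ (91/48 : ℝ))))) := by positivity
      rw [eadd]
      calc (Cd + Ca * R1) * (M ^ (-(5/48) : ℝ) * Real.exp (-(c' * y)))
          ≤ (Cd + Ca * R1) * ((n:ℝ) ^ (-(5/91) : ℝ) * ((2 / c') *
            Real.exp (-(c0 * (n * t ^ (91/48 : ℝ)))))) := by
            apply mul_le_mul_of_nonneg_left _ (by positivity)
            refine h7.trans ?_
            apply mul_le_mul_of_nonneg_left _ hnp.le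
            exact mul_le_mul_of_nonneg_left h8 (by positivity)
        _ = (Cd + Ca * R1) * (2 / c') * (n:ℝ) ^ (-(5/91) : ℝ) *
            Real.exp (-(c0 * (n * t ^ (91/48 : ℝ)))) := by ring
        _ ≤ _ := by linarith

end CS871
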